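import Mathlib

/-! Asymptotics of the counting inequality. -/

set_option autoImplicit false
open Filter Topology

namespace Pool.Agent.Helper964_DD.RG

theorem tendsto_sub_div {D : ℕ → ℕ} {α : ℝ} (hD : Tendsto (fun N => (D N : ℝ) / N) atTop (𝓝 α))
    (j : ℕ) : Tendsto (fun N => ((D N - j : ℕ) : ℝ) / N) atTop (𝓝 α) := by
  have h0 : Tendsto (fun N : ℕ => (j : ℝ) / N) atTop (𝓝 0) := tendsto_const_div_atTop_nhds_zero_nat _
  have h1 : Tendsto (fun N : ℕ => (D N : ℝ) / N - (j : ℝ) / N) atTop (𝓝 α) := by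
    have := hD.sub h0
    rwa [sub_zero] at this
  refine tendsto_of_tendsto_of_tendsto_of_le_of_le h1 hD ?_ ?_
  · intro N
    show (D N : ℝ) / N - (j : ℝ) / N ≤ ((D N - j : ℕ) : ℝ) / N
    rw [← sub_div]
    refine div_le_div_of_nonneg_right ?_ (Nat.cast_nonneg _)
    have : D N ≤ (D N - j) + j := by omega
    have : (D N : ℝ) ≤ ((D N - j : ℕ) : ℝ) + j := by exact_mod_cast this
    linarith
  · intro N
    show ((D N - j : ℕ) : ℝ) / N ≤ (D N : ℝ) / N
    refine div_le_div_of_nonneg_right ?_ (Nat.cast_nonneg _)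
    exact_mod_cast Nat.sub_le _ _

theorem tendsto_choose {D : ℕ → ℕ} {α : ℝ} (hD : Tendsto (fun N => (D N : ℝ) / N) atTop (𝓝 α))
    (j : ℕ) : Tendsto (fun N => ((D N).choose j : ℝ) / (N : ℝ) ^ j) atTop
      (𝓝 (α ^ j / (j.factorial : ℝ))) := by
  induction j with
  | zero => simp
  | succ j ih =>
    have h1 := (ih.mul (tendsto_sub_div hD j)).div_const ((j : ℝ) + 1)
    have e1 : α ^ j / (j.factorial : ℝ) * α / ((j : ℝ) + 1) = α ^ (j + 1) / ((j + 1).factorial : ℝ) := by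
      rw [Nat.factorial_succ]
      push_cast
      have : (j.factorial : ℝ) ≠ 0 := by exact_mod_cast j.factorial_ne_zero
      have : (j : ℝ) + 1 ≠ 0 := by positivity
      field_simp
      ring
    rw [e1] at h1
    refine h1.congr fun N => ?_
    have h2 : ((D N).choose (j + 1) : ℝ) * ((j : ℝ) + 1) = ((D N).choose j : ℝ) * ((D N - j : ℕ) : ℝ) := by
      exact_mod_cast Nat.choose_succ_right_eq (D N) j
    have hj : (j : ℝ) + 1 ≠ 0 := by positivity
    have h3 : ((D N).choose (j + 1) : ℝ) = ((D N).choose j : ℝ) * ((D N - j : ℕ) : ℝ) / ((j : ℝ) + 1) := by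
      rw [← h2]; field_simp
    rw [h3, pow_succ]
    ring

/-- the span -/
def Dn (m s N : ℕ) : ℕ := s * N / (m - 1)

theorem Dn_le {m s : ℕ} (h : s + 1 < m) (N : ℕ) : Dn m s N ≤ N := by
  unfold Dn
  calc s * N / (m - 1) ≤ (m - 1) * N / (m - 1) := Nat.div_le_div_right (Nat.mul_le_mul_right _ (by omega))
    _ = N := Nat.mul_div_cancel_left _ (by omega)

theorem Dn_tendsto {m s : ℕ} (h : s + 1 < m) :
    Tendsto (fun N => (Dn m s N : ℝ) / N) atTop (𝓝 ((s : ℝ) / ((m : ℝ) - 1))) := by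
  have hm : (0 : ℝ) < (m : ℝ) - 1 := by
    have : ((1 : ℕ) : ℝ) < m := by exact_mod_cast (by omega : 1 < m)
    push_cast at this
    linarith
  have hmc : ((m - 1 : ℕ) : ℝ) = (m : ℝ) - 1 := by
    rw [Nat.cast_sub (by omega)]; simp
  have h0 : Tendsto (fun N : ℕ => (1 : ℝ) / N) atTop (𝓝 0) := tendsto_const_div_atTop_nhds_zero_nat _
  have h1 : Tendsto (fun N : ℕ => (s : ℝ) / ((m : ℝ) - 1) - (1 : ℝ) / N) atTop
      (𝓝 ((s : ℝ) / ((m : ℝ) - 1))) := by
    have := (tendsto_const_nhds (x := (s : ℝ) / ((m : ℝ) - 1))).sub h0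
    rwa [sub_zero] at this
  refine tendsto_of_tendsto_of_tendsto_of_le_of_le' h1 tendsto_const_nhds ?_ ?_
  · filter_upwards [eventually_gt_atTop 0] with N hN
    have hN' : (0 : ℝ) < N := by exact_mod_cast hN
    have h2 : s * N < (m - 1) * (Dn m s N + 1) := by
      have h3 := Nat.div_add_mod (s * N) (m - 1)
      have h4 := Nat.mod_lt (s * N) (show 0 < m - 1 by omega)
      unfold Dn
      rw [mul_add, mul_one]
      omega
    have h5 : (s : ℝ) * N < ((m : ℝ) - 1) * ((Dn m s N : ℝ) + 1) := by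
      rw [← hmc]; exact_mod_cast h2
    rw [sub_le_iff_le_add, ← add_div, div_le_div_iff₀ hm hN']
    nlinarith
  · filter_upwards [eventually_gt_atTop 0] with N hN
    have hN' : (0 : ℝ) < N := by exact_mod_cast hN
    have h2 : (m - 1) * Dn m s N ≤ s * N := Nat.mul_div_le _ _
    have h5 : ((m : ℝ) - 1) * (Dn m s N : ℝ) ≤ (s : ℝ) * N := by
      rw [← hmc]; exact_mod_cast h2
    rw [div_le_div_iff₀ hN' hm]
    nlinarith

theorem self_tendsto : Tendsto (fun N : ℕ => (N : ℝ) / N) atTop (𝓝 1) := by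
  refine tendsto_const_nhds.congr' ?_
  filter_upwards [eventually_gt_atTop 0] with N hN
  have hN' : (N : ℝ) ≠ 0 := by exact_mod_cast hN.ne'
  rw [div_self hN']

theorem asym {m s : ℕ} (hs : 1 ≤ s) (hm : s + 1 < m) {ε : ℝ} (hε : 0 < ε) : ∃ N0 : ℕ, ∀ N, N0 ≤ N →
    (((s : ℝ) / ((m : ℝ) - 1)) ^ s - ε) * (N.choose (s + 1) : ℝ) ≤
      ((N - Dn m s N : ℕ) : ℝ) * ((Dn m s N).choose s : ℝ) + ((Dn m s N).choose (s + 1) : ℝ) -
        ((m - (s + 1) : ℕ) : ℝ) * ((Dn m s N + 1).choose (s + 1) : ℝ) := by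
  set α : ℝ := (s : ℝ) / ((m : ℝ) - 1) with hα
  have hD := Dn_tendsto hm
  rw [← hα] at hD
  have hD1 : Tendsto (fun N => ((Dn m s N + 1 : ℕ) : ℝ) / N) atTop (𝓝 α) := by
    have h0 : Tendsto (fun N : ℕ => (1 : ℝ) / N) atTop (𝓝 0) := tendsto_const_div_atTop_nhds_zero_nat _
    have h1 := hD.add h0
    rw [add_zero] at h1
    refine h1.congr fun N => ?_
    push_cast
    rw [add_div]
  have t1 := tendsto_choose hD s
  have t2 := tendsto_choose hD (s + 1)
  have t3 := tendsto_choose hD1 (s + 1)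
  have t4 := tendsto_choose (D := fun N => N) self_tendsto (s + 1)
  have t5 : Tendsto (fun N : ℕ => (N : ℝ) / N - (Dn m s N : ℝ) / N) atTop (𝓝 (1 - α)) :=
    self_tendsto.sub hD
  have t6 := ((t5.mul t1).add t2).sub (t3.const_mul ((m - (s + 1) : ℕ) : ℝ))
  have t7 := t6.sub (t4.const_mul (α ^ s - ε))
  have hm1 : (0 : ℝ) < (m : ℝ) - 1 := by
    have : ((1 : ℕ) : ℝ) < m := by exact_mod_cast (by omega : 1 < m)
    push_cast at this
    linarith
  have hlim : ((1 - α) * (α ^ s / (s.factorial : ℝ)) + α ^ (s + 1) / ((s + 1).factorial : ℝ) -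
      ((m - (s + 1) : ℕ) : ℝ) * (α ^ (s + 1) / ((s + 1).factorial : ℝ))) -
      (α ^ s - ε) * ((1 : ℝ) ^ (s + 1) / ((s + 1).factorial : ℝ)) = ε / ((s + 1).factorial : ℝ) := by
    have hsf : (s.factorial : ℝ) ≠ 0 := by exact_mod_cast s.factorial_ne_zero
    have hs1 : (s : ℝ) + 1 ≠ 0 := by positivity
    have e1 : ((s + 1).factorial : ℝ) = ((s : ℝ) + 1) * (s.factorial : ℝ) := by
      rw [Nat.factorial_succ]; push_cast; ring
    have e2 : ((m - (s + 1) : ℕ) : ℝ) = (m : ℝ) - s - 1 := by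
      rw [Nat.cast_sub hm.le]; push_cast; ring
    have e3 : α * ((m : ℝ) - 1) = s := by rw [hα]; field_simp
    rw [e1, e2, one_pow, pow_succ]
    field_simp
    have e4 : (s : ℝ) = α * ((m : ℝ) - 1) := e3.symm
    generalize hA : α ^ s = A
    have : (m : ℝ) * α = s + α := by linarith
    linear_combination (-A) * this
  rw [hlim] at t7
  have hpos : (0 : ℝ) < ε / ((s + 1).factorial : ℝ) := by positivity
  have hev := (t7.eventually (lt_mem_nhds hpos)).and (eventually_gt_atTop 0)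
  obtain ⟨N0, hN0⟩ := eventually_atTop.mp hev
  refine ⟨N0, fun N hN => ?_⟩
  obtain ⟨h1, h2⟩ := hN0 N hN
  have hN' : (0 : ℝ) < N := by exact_mod_cast h2
  have hNp : (0 : ℝ) < (N : ℝ) ^ (s + 1) := by positivity
  have hDN : ((N - Dn m s N : ℕ) : ℝ) = (N : ℝ) - (Dn m s N : ℝ) := Nat.cast_sub (Dn_le hm N)
  have h3 := mul_pos h1 hNp
  have h4 : (((N : ℝ) / N - (Dn m s N : ℝ) / N) * (((Dn m s N).choose s : ℝ) / (N : ℝ) ^ s) +
      ((Dn m s N).choose (s + 1) : ℝ) / (N : ℝ) ^ (s + 1) -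
      ((m - (s + 1) : ℕ) : ℝ) * (((Dn m s N + 1).choose (s + 1) : ℝ) / (N : ℝ) ^ (s + 1)) -
      (α ^ s - ε) * ((N.choose (s + 1) : ℝ) / (N : ℝ) ^ (s + 1))) * (N : ℝ) ^ (s + 1) =
      ((N - Dn m s N : ℕ) : ℝ) * ((Dn m s N).choose s : ℝ) + ((Dn m s N).choose (s + 1) : ℝ) -
        ((m - (s + 1) : ℕ) : ℝ) * ((Dn m s N + 1).choose (s + 1) : ℝ) -
        (α ^ s - ε) * (N.choose (s + 1) : ℝ) := by
    rw [hDN]
    field_simp
    ring
  rw [h4] at h3
  linarith

end Pool.Agent.Helper964_DD.RG
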