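import Mathlib

/-! Cliques of transitive ordered `r`-graphs with the sliding property. -/

set_option autoImplicit false
open Finset
open scoped Classical

namespace Pool.Agent.Helper964_DD.RG

/-- transitivity on the points below `N` -/
def TransOn (H : Finset ℕ → Prop) (N r : ℕ) : Prop :=
  ∀ P ⊆ range N, P.card = r + 1 → ∀ a ∈ P, ∀ z ∈ P, (∀ x ∈ P, a ≤ x ∧ x ≤ z) →
    H (P.erase z) → H (P.erase a) → ∀ x ∈ P, H (P.erase x)

/-- the sliding property on the points below `N` -/
def SlideOn (H : Finset ℕ → Prop) (N r : ℕ) : Prop :=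
  ∀ P ⊆ range N, P.card = r + 1 → ∀ a ∈ P, ∀ b ∈ P, ∀ z ∈ P, (∀ x ∈ P, a ≤ x ∧ x ≤ z) → b ≠ a →
    (∀ x ∈ P, x ≠ a → b ≤ x) → H (P.erase z) → H (P.erase b)

/-- cliques -/
def Clq (H : Finset ℕ → Prop) (N r : ℕ) (Q : Finset ℕ) : Prop :=
  Q ⊆ range N ∧ ∀ Z ⊆ Q, Z.card = r → H Z

/-- `A` consists of the last points of `Q` -/
def Top (A Q : Finset ℕ) : Prop := A ⊆ Q ∧ ∀ x ∈ Q, x ∉ A → ∀ a ∈ A, x < a

variable {H : Finset ℕ → Prop} {N r : ℕ}

theorem ext_clq (hr : 2 ≤ r) (hT : TransOn H N r) {Q A : Finset ℕ} (hQ : Clq H N r Q)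
    (hA : Top A Q) (hAc : A.card + 1 = r) {w : ℕ} (hw : w < N) (hAw : ∀ a ∈ A, a < w)
    (hHw : H (insert w A)) : Clq H N r (insert w Q) ∧ ∀ x ∈ Q, x < w := by
  obtain ⟨a0, ha0⟩ : A.Nonempty := card_pos.mp (by omega)
  have hQw : ∀ x ∈ Q, x < w := by
    intro x hx
    by_cases hxA : x ∈ A
    · exact hAw x hxA
    · exact (hA.2 x hx hxA a0 ha0).trans (hAw a0 ha0)
  have hwQ : w ∉ Q := fun h => lt_irrefl _ (hQw w h)
  refine ⟨⟨?_, ?_⟩, hQw⟩
  · intro x hx
    rcases mem_insert.mp hx with rfl | hx
    · exact mem_range.mpr hw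
    · exact hQ.1 hx
  have claim : ∀ k : ℕ, ∀ U ⊆ Q, U.card + 1 = r → (U \ A).card = k → H (insert w U) := by
    intro k
    induction k with
    | zero =>
      intro U hU hUc h0
      have h1 : U ⊆ A := sdiff_eq_empty_iff_subset.mp (card_eq_zero.mp h0)
      have h2 : U = A := eq_of_subset_of_card_le h1 (by omega)
      rw [h2]; exact hHw
    | succ k ih =>
      intro U hU hUc hk
      have hUne : U.Nonempty := card_pos.mp (by omega)
      set u := U.min' hUne with hu
      have huU : u ∈ U := U.min'_mem hUne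
      have humin : ∀ x ∈ U, u ≤ x := fun x hx => U.min'_le x hx
      have huA : u ∉ A := by
        intro huA
        have : U ⊆ A := by
          intro x hx
          by_contra hxA
          exact absurd (hA.2 x (hU hx) hxA u huA) (not_lt.mpr (humin x hx))
        rw [sdiff_eq_empty_iff_subset.mpr this] at hk
        simp at hk
      obtain ⟨x, hx⟩ : (A \ U).Nonempty := by
        rw [nonempty_iff_ne_empty]
        intro h
        have h1 : A ⊆ U := sdiff_eq_empty_iff_subset.mp h
        have h2 : A = U := eq_of_subset_of_card_le h1 (by omega)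
        exact huA (h2 ▸ huU)
      rw [mem_sdiff] at hx
      have hux : u < x := hA.2 u (hU huU) huA x hx.1
      have hxQ : x ∈ Q := hA.1 hx.1
      have hxw : x < w := hQw x hxQ
      have hwU : w ∉ U := fun h => hwQ (hU h)
      have hwx : w ≠ x := hxw.ne'
      -- the smaller case
      have h1 : H (insert w (insert x (U.erase u))) := by
        refine ih (insert x (U.erase u)) ?_ ?_ ?_
        · intro y hy
          rcases mem_insert.mp hy with rfl | hy
          · exact hxQ
          · exact hU (mem_of_mem_erase hy)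
        · rw [card_insert_of_notMem (fun h => hx.2 (mem_of_mem_erase h)), card_erase_of_mem huU]
          omega
        · have e : insert x (U.erase u) \ A = (U \ A).erase u := by
            ext y
            simp only [mem_sdiff, mem_insert, mem_erase]
            constructor
            · rintro ⟨rfl | h, h'⟩
              · exact absurd hx.1 h'
              · exact ⟨h.1, h.2, h'⟩
            · rintro ⟨h, h', h''⟩
              exact ⟨Or.inr ⟨h, h'⟩, h''⟩
          rw [e, card_erase_of_mem (mem_sdiff.mpr ⟨huU, huA⟩), hk]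
          rfl
      have hP1 : x ∉ U := hx.2
      have hP2 : w ∉ insert x U := by
        rw [mem_insert]
        rintro (h | h)
        · exact hwx h
        · exact hwU h
      have hres := hT (insert w (insert x U)) ?_ ?_ u (by simp [huU]) w (by simp) ?_ ?_ ?_ x (by simp)
      · have e : (insert w (insert x U)).erase x = insert w U := by
          rw [erase_insert_of_ne hwx, erase_insert hP1]
        rw [e] at hres
        exact hres
      · intro y hy
        simp only [mem_insert] at hy
        rcases hy with rfl | rfl | hy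
        · exact mem_range.mpr hw
        · exact hQ.1 hxQ
        · exact hQ.1 (hU hy)
      · rw [card_insert_of_notMem hP2, card_insert_of_notMem hP1]
        omega
      · intro y hy
        simp only [mem_insert] at hy
        rcases hy with rfl | rfl | hy
        · exact ⟨(hux.trans hxw).le, le_refl _⟩
        · exact ⟨hux.le, hxw.le⟩
        · exact ⟨humin y hy, (hQw y (hU hy)).le⟩
      · rw [erase_insert hP2]
        refine hQ.2 _ ?_ ?_
        · intro y hy
          rcases mem_insert.mp hy with rfl | hy
          · exact hxQ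
          · exact hU hy
        · rw [card_insert_of_notMem hP1]; omega
      · have e : (insert w (insert x U)).erase u = insert w (insert x (U.erase u)) := by
          rw [erase_insert_of_ne (hux.trans hxw).ne', erase_insert_of_ne hux.ne']
        rw [e]
        exact h1
  intro Z hZ hZc
  by_cases hwZ : w ∈ Z
  · have h1 := claim _ (Z.erase w) ?_ ?_ rfl
    · rwa [insert_erase hwZ] at h1
    · intro y hy
      rw [mem_erase] at hy
      rcases mem_insert.mp (hZ hy.2) with h | h
      · exact absurd h hy.1
      · exact h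
    · rw [card_erase_of_mem hwZ]; omega
  · refine hQ.2 Z ?_ hZc
    intro y hy
    rcases mem_insert.mp (hZ hy) with h | h
    · exact absurd (h ▸ hy) hwZ
    · exact h

theorem slide_clq (hr : 2 ≤ r) (hT : TransOn H N r) (hS : SlideOn H N r) {Q A : Finset ℕ}
    (hQ : Clq H N r Q) (hA : Top A Q) (hAc : A.card + 1 = r) (hQc : r ≤ Q.card) {a1 w : ℕ}
    (ha1 : a1 ∈ A) (ha1' : ∀ a ∈ A, a1 ≤ a) (hw : w < N) (hAw : ∀ a ∈ A, a < w) :
    Clq H N r (insert w (Q.erase a1)) ∧ ∀ x ∈ Q, x < w := by
  have hne : (Q \ A).Nonempty := by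
    rw [nonempty_iff_ne_empty]
    intro h
    have h1 : Q ⊆ A := sdiff_eq_empty_iff_subset.mp h
    have := card_le_card h1
    omega
  set q := (Q \ A).max' hne with hq
  have hqm := (Q \ A).max'_mem hne
  rw [← hq, mem_sdiff] at hqm
  have hqmax : ∀ x ∈ Q, x ∉ A → x ≤ q := fun x hx hxA =>
    (Q \ A).le_max' x (mem_sdiff.mpr ⟨hx, hxA⟩)
  have hqA : ∀ a ∈ A, q < a := hA.2 q hqm.1 hqm.2
  have hqa1 : q ≠ a1 := fun h => hqm.2 (h ▸ ha1)
  have hQw : ∀ x ∈ Q, x < w := by
    intro x hx
    by_cases hxA : x ∈ A
    · exact hAw x hxA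
    · exact (hA.2 x hx hxA a1 ha1).trans (hAw a1 ha1)
  have hqw : q < w := hQw q hqm.1
  have hwA : w ∉ A := fun h => lt_irrefl _ (hAw w h)
  -- the new top part
  have hB : Top (insert q (A.erase a1)) (Q.erase a1) := by
    refine ⟨?_, ?_⟩
    · intro y hy
      rcases mem_insert.mp hy with rfl | hy
      · exact mem_erase.mpr ⟨hqa1, hqm.1⟩
      · exact mem_erase.mpr ⟨(mem_erase.mp hy).1, hA.1 (mem_erase.mp hy).2⟩
    · intro x hx hxB b hb
      rw [mem_erase] at hx
      rw [mem_insert, mem_erase] at hxB
      push Not at hxB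
      have hxA : x ∉ A := fun h => hxB.2 hx.1 h
      rcases mem_insert.mp hb with rfl | hb
      · exact lt_of_le_of_ne (hqmax x hx.2 hxA) hxB.1
      · exact hA.2 x hx.2 hxA b (mem_erase.mp hb).2
  have hqAe : q ∉ A.erase a1 := fun h => hqm.2 (mem_erase.mp h).2
  have hP2 : w ∉ insert q A := by
    rw [mem_insert]
    rintro (h | h)
    · exact absurd h hqw.ne'
    · exact hwA h
  have hH : H (insert w (insert q (A.erase a1))) := by
    have hres := hS (insert w (insert q A)) ?_ ?_ q (by simp) a1 (by simp [ha1]) w (by simp) ?_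
      hqa1.symm ?_ ?_
    · have e : (insert w (insert q A)).erase a1 = insert w (insert q (A.erase a1)) := by
        rw [erase_insert_of_ne (hAw a1 ha1).ne', erase_insert_of_ne hqa1]
      rwa [e] at hres
    · intro y hy
      simp only [mem_insert] at hy
      rcases hy with rfl | rfl | hy
      · exact mem_range.mpr hw
      · exact hQ.1 hqm.1
      · exact hQ.1 (hA.1 hy)
    · rw [card_insert_of_notMem hP2, card_insert_of_notMem hqm.2]
      omega
    · intro y hy
      simp only [mem_insert] at hy
      rcases hy with rfl | rfl | hy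
      · exact ⟨hqw.le, le_refl _⟩
      · exact ⟨le_refl _, hqw.le⟩
      · exact ⟨(hqA y hy).le, (hAw y hy).le⟩
    · intro y hy hyq
      simp only [mem_insert] at hy
      rcases hy with rfl | rfl | hy
      · exact (hAw a1 ha1).le
      · exact absurd rfl hyq
      · exact ha1' y hy
    · rw [erase_insert hP2]
      refine hQ.2 _ ?_ ?_
      · intro y hy
        rcases mem_insert.mp hy with rfl | hy
        · exact hqm.1
        · exact hA.1 hy
      · rw [card_insert_of_notMem hqm.2]; omega
  have hres := ext_clq hr hT (Q := Q.erase a1) (A := insert q (A.erase a1))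
    ⟨(erase_subset _ _).trans hQ.1, fun Z hZ hZc => hQ.2 Z (hZ.trans (erase_subset _ _)) hZc⟩ hB ?_ hw ?_ hH
  · exact ⟨hres.1, hQw⟩
  · rw [card_insert_of_notMem hqAe, card_erase_of_mem ha1]
    omega
  · intro a ha
    rcases mem_insert.mp ha with rfl | ha
    · exact hqw
    · exact hAw a (mem_erase.mp ha).2

end Pool.Agent.Helper964_DD.RG
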