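import Pool.Agent.Helper964_DD.RG.Label

/-! Counting the `r`-sets of small span. -/

set_option autoImplicit false
open Finset
open scoped Classical

namespace Pool.Agent.Helper964_DD.RG

/-- the first point -/
noncomputable def mn (Z : Finset ℕ) : ℕ := if h : Z.Nonempty then Z.min' h else 0

/-- the last point -/
noncomputable def mx (Z : Finset ℕ) : ℕ := if h : Z.Nonempty then Z.max' h else 0

theorem mn_mem {Z : Finset ℕ} (h : Z.Nonempty) : mn Z ∈ Z := by
  unfold mn; rw [dif_pos h]; exact Z.min'_mem h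

theorem mx_mem {Z : Finset ℕ} (h : Z.Nonempty) : mx Z ∈ Z := by
  unfold mx; rw [dif_pos h]; exact Z.max'_mem h

theorem mn_le {Z : Finset ℕ} {x : ℕ} (hx : x ∈ Z) : mn Z ≤ x := by
  unfold mn; rw [dif_pos ⟨x, hx⟩]; exact Z.min'_le x hx

theorem le_mx {Z : Finset ℕ} {x : ℕ} (hx : x ∈ Z) : x ≤ mx Z := by
  unfold mx; rw [dif_pos ⟨x, hx⟩]; exact Z.le_max' x hx

theorem mn_eq {Z : Finset ℕ} {a : ℕ} (ha : a ∈ Z) (h : ∀ x ∈ Z, a ≤ x) : mn Z = a :=
  le_antisymm (mn_le ha) (h _ (mn_mem ⟨a, ha⟩))

theorem mx_eq {Z : Finset ℕ} {a : ℕ} (ha : a ∈ Z) (h : ∀ x ∈ Z, x ≤ a) : mx Z = a :=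
  le_antisymm (h _ (mx_mem ⟨a, ha⟩)) (le_mx ha)

/-- the `r`-sets of span at most `D` -/
noncomputable def Rs (N r D : ℕ) : Finset (Finset ℕ) :=
  ((range N).powersetCard r).filter fun Z => mx Z ≤ mn Z + D

theorem fib_le {N r D : ℕ} (hr : 2 ≤ r) {A : Finset ℕ} (hA : A ∈ (range N).powersetCard (r - 1)) :
    ((Rs N r D).filter fun Z => Z.erase (mn Z) = A).card ≤
      ((Rs N r D).filter fun Z => Z.erase (mx Z) = A).card + (mn A + D + 1 - N) := by
  rw [mem_powersetCard] at hA
  have hAne : A.Nonempty := card_pos.mp (by omega)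
  set a := mn A with ha
  set z := mx A with hz
  have haA : a ∈ A := mn_mem hAne
  have hzA : z ∈ A := mx_mem hAne
  have haz : a ≤ z := mn_le hzA
  have hzN : z < N := mem_range.mp (hA.1 hzA)
  have h1 : ((Rs N r D).filter fun Z => Z.erase (mn Z) = A).card ≤ (Ico (z - D) a).card := by
    refine card_le_card_of_injOn (fun Z => mn Z) ?_ ?_
    · intro Z hZ
      obtain ⟨hZR, hZA⟩ := mem_filter.mp (mem_coe.mp hZ)
      obtain ⟨hZ1, hZD⟩ := mem_filter.mp hZR
      rw [mem_powersetCard] at hZ1
      have hZne : Z.Nonempty := card_pos.mp (by omega)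
      rw [mem_coe, mem_Ico]
      have e1 : a ∈ Z.erase (mn Z) := by rw [hZA]; exact haA
      have e2 : z ∈ Z.erase (mn Z) := by rw [hZA]; exact hzA
      rw [mem_erase] at e1 e2
      have e3 := mn_le e1.2
      have e4 := le_mx e2.2
      simp only
      have := e1.1
      constructor
      · omega
      · omega
    · intro Z hZ Z' hZ' h
      obtain ⟨hZR, hZA⟩ := mem_filter.mp (mem_coe.mp hZ)
      obtain ⟨hZR', hZA'⟩ := mem_filter.mp (mem_coe.mp hZ')
      have hZ1 := (mem_powersetCard.mp (mem_filter.mp hZR).1)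
      have hZ1' := (mem_powersetCard.mp (mem_filter.mp hZR').1)
      have m1 := mn_mem (Z := Z) (card_pos.mp (by omega))
      have m2 := mn_mem (Z := Z') (card_pos.mp (by omega))
      simp only at h
      rw [← insert_erase m1, ← insert_erase m2, hZA, hZA', h]
  have h2 : (Ioc z (min (N - 1) (a + D))).card ≤
      ((Rs N r D).filter fun Z => Z.erase (mx Z) = A).card := by
    refine card_le_card_of_injOn (fun y => insert y A) ?_ ?_
    · intro y hy
      have hy' := mem_Ioc.mp (mem_coe.mp hy)
      have hyA : y ∉ A := fun h => by have := le_mx h; omega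
      have e1 : mx (insert y A) = y := by
        refine mx_eq (mem_insert_self _ _) fun x hx => ?_
        rcases mem_insert.mp hx with rfl | hx
        · exact le_refl _
        · have := le_mx hx; omega
      have e2 : mn (insert y A) = a := by
        refine mn_eq (mem_insert_of_mem haA) fun x hx => ?_
        rcases mem_insert.mp hx with rfl | hx
        · omega
        · exact mn_le hx
      rw [mem_coe, mem_filter]
      refine ⟨mem_filter.mpr ⟨mem_powersetCard.mpr ⟨?_, ?_⟩, ?_⟩, ?_⟩
      · intro x hx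
        rcases mem_insert.mp hx with rfl | hx
        · exact mem_range.mpr (by omega)
        · exact hA.1 hx
      · rw [card_insert_of_notMem hyA, hA.2]; omega
      · rw [e1, e2]; omega
      · rw [e1, erase_insert hyA]
    · intro y hy y' hy' h
      have hy1 := mem_Ioc.mp (mem_coe.mp hy)
      have hy2 := mem_Ioc.mp (mem_coe.mp hy')
      have hyA : y ∉ A := fun h => by have := le_mx h; omega
      have hyA' : y' ∉ A := fun h => by have := le_mx h; omega
      simp only at h
      have : y ∈ insert y' A := by rw [← h]; exact mem_insert_self _ _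
      rcases mem_insert.mp this with h | h
      · exact h
      · exact absurd h hyA
  rw [Nat.card_Ico] at h1
  rw [Nat.card_Ioc] at h2
  omega

theorem sum_exc {N r D : ℕ} (hr : 2 ≤ r) (hD : D ≤ N) :
    ∑ A ∈ (range N).powersetCard (r - 1), (mn A + D + 1 - N) ≤ (D + 1).choose r := by
  have h1 : ∑ A ∈ (range N).powersetCard (r - 1), (mn A + D + 1 - N) =
      (((range N).powersetCard (r - 1)).sigma fun A => range (mn A + D + 1 - N)).card := by
    rw [card_sigma]
    refine sum_congr rfl fun A _ => ?_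
    rw [card_range]
  have h2 : ((Icc (N - D) N).powersetCard r).card = (D + 1).choose r := by
    rw [card_powersetCard, Nat.card_Icc]
    congr 1
    omega
  rw [h1, ← h2]
  have key : ∀ (A : Finset ℕ) (j : ℕ), A ∈ (range N).powersetCard (r - 1) →
      j < mn A + D + 1 - N → (mn A - j) ∉ A.image (· + 1) ∧
        mn (insert (mn A - j) (A.image (· + 1))) = mn A - j := by
    intro A j hA hj
    rw [mem_powersetCard] at hA
    have hnot : ∀ x ∈ A.image (· + 1), mn A - j < x := by
      intro x hx
      obtain ⟨y, hy, rfl⟩ := mem_image.mp hx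
      have := mn_le hy
      omega
    refine ⟨fun h => lt_irrefl _ (hnot _ h), mn_eq (mem_insert_self _ _) fun x hx => ?_⟩
    rcases mem_insert.mp hx with rfl | hx
    · exact le_refl _
    · exact (hnot x hx).le
  refine card_le_card_of_injOn (fun p : (_ : Finset ℕ) × ℕ => insert (mn p.1 - p.2) (p.1.image (· + 1))) ?_ ?_
  · rintro ⟨A, j⟩ hp
    obtain ⟨hA, hj⟩ := mem_sigma.mp (mem_coe.mp hp)
    simp only at hA hj
    rw [mem_range] at hj
    have hk := key A j hA hj
    rw [mem_powersetCard] at hA
    have hAne : A.Nonempty := card_pos.mp (by omega)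
    have hmN : mn A < N := mem_range.mp (hA.1 (mn_mem hAne))
    show insert (mn A - j) (A.image (· + 1)) ∈
      (((Icc (N - D) N).powersetCard r : Finset (Finset ℕ)) : Set (Finset ℕ))
    rw [mem_coe, mem_powersetCard]
    refine ⟨?_, ?_⟩
    · intro x hx
      rw [mem_Icc]
      rcases mem_insert.mp hx with rfl | hx
      · omega
      · obtain ⟨y, hy, rfl⟩ := mem_image.mp hx
        have := mn_le hy
        have := mem_range.mp (hA.1 hy)
        omega
    · rw [card_insert_of_notMem hk.1, card_image_of_injective _ (add_left_injective 1), hA.2]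
      omega
  · rintro ⟨A, j⟩ hp ⟨A', j'⟩ hp' h
    obtain ⟨hA, hj⟩ := mem_sigma.mp (mem_coe.mp hp)
    obtain ⟨hA', hj'⟩ := mem_sigma.mp (mem_coe.mp hp')
    simp only at hA hj hA' hj' h
    rw [mem_range] at hj hj'
    have hk := key A j hA hj
    have hk' := key A' j' hA' hj'
    rw [mem_powersetCard] at hA hA'
    have hAne : A.Nonempty := card_pos.mp (by omega)
    have hAne' : A'.Nonempty := card_pos.mp (by omega)
    have hmN : mn A < N := mem_range.mp (hA.1 (mn_mem hAne))
    have hmN' : mn A' < N := mem_range.mp (hA'.1 (mn_mem hAne'))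
    have e1 : mn A - j = mn A' - j' := by rw [← hk.2, ← hk'.2, h]
    have e2 : A.image (· + 1) = A'.image (· + 1) := by
      rw [← erase_insert hk.1, ← erase_insert hk'.1, h, e1]
    have e3 : A = A' := image_injective (add_left_injective 1) e2
    subst e3
    have e4 : j = j' := by omega
    rw [e4]

theorem Rs_card {N r D : ℕ} (hr : 2 ≤ r) (hD : D ≤ N) :
    (N - D) * D.choose (r - 1) + D.choose r ≤ (Rs N r D).card := by
  have gt : ∀ (x : ℕ) (B : Finset ℕ), B ∈ (Icc 1 D).powersetCard (r - 1) →
      ∀ y ∈ B.image (x + ·), x < y ∧ y ≤ x + D := by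
    intro x B hB y hy
    obtain ⟨b, hb, rfl⟩ := mem_image.mp hy
    have := mem_Icc.mp ((mem_powersetCard.mp hB).1 hb)
    omega
  have gm : ∀ (x : ℕ) (B : Finset ℕ), B ∈ (Icc 1 D).powersetCard (r - 1) →
      x ∉ B.image (x + ·) ∧ mn (insert x (B.image (x + ·))) = x := by
    intro x B hB
    refine ⟨fun h => lt_irrefl _ (gt x B hB x h).1, mn_eq (mem_insert_self _ _) fun y hy => ?_⟩
    rcases mem_insert.mp hy with rfl | hy
    · exact le_refl _
    · exact (gt x B hB y hy).1.le
  set R1 := ((range (N - D)) ×ˢ ((Icc 1 D).powersetCard (r - 1))).image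
    fun p => insert p.1 (p.2.image (p.1 + ·)) with hR1
  set R2 := (Ico (N - D) N).powersetCard r with hR2
  have c1 : R1.card = (N - D) * D.choose (r - 1) := by
    rw [hR1, card_image_of_injOn, card_product, card_range, card_powersetCard, Nat.card_Icc]
    · congr 2
    · rintro ⟨x, B⟩ hp ⟨x', B'⟩ hp' h
      have hp1 := mem_product.mp (mem_coe.mp hp)
      have hp2 := mem_product.mp (mem_coe.mp hp')
      simp only at hp1 hp2 h
      have k1 := gm x B hp1.2
      have k2 := gm x' B' hp2.2
      have e1 : x = x' := by rw [← k1.2, ← k2.2, h]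
      subst e1
      have e2 : B.image (x + ·) = B'.image (x + ·) := by
        rw [← erase_insert k1.1, ← erase_insert k2.1, h]
      have e3 : B = B' := image_injective (add_right_injective x) e2
      rw [e3]
  have c2 : R2.card = D.choose r := by
    rw [hR2, card_powersetCard, Nat.card_Ico]
    congr 1
    omega
  have hdis : Disjoint R1 R2 := by
    rw [disjoint_left]
    intro Z hZ1 hZ2
    obtain ⟨⟨x, B⟩, hp, rfl⟩ := mem_image.mp hZ1
    have hp1 := mem_product.mp hp
    simp only at hp1 hZ2
    have h1 : x ∈ Ico (N - D) N := (mem_powersetCard.mp hZ2).1 (mem_insert_self _ _)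
    have h2 := mem_range.mp hp1.1
    rw [mem_Ico] at h1
    omega
  have hsub : R1 ∪ R2 ⊆ Rs N r D := by
    intro Z hZ
    unfold Rs
    rw [mem_filter, mem_powersetCard]
    rcases mem_union.mp hZ with hZ | hZ
    · obtain ⟨⟨x, B⟩, hp, rfl⟩ := mem_image.mp hZ
      have hp1 := mem_product.mp hp
      simp only at hp1 ⊢
      have k1 := gm x B hp1.2
      have h2 := mem_range.mp hp1.1
      refine ⟨⟨?_, ?_⟩, ?_⟩
      · intro y hy
        rw [mem_range]
        rcases mem_insert.mp hy with rfl | hy
        · omega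
        · have := gt x B hp1.2 y hy; omega
      · rw [card_insert_of_notMem k1.1, card_image_of_injective _ (add_right_injective x),
          (mem_powersetCard.mp hp1.2).2]
        omega
      · rw [k1.2]
        have hm := mx_mem (Z := insert x (B.image (x + ·))) ⟨x, mem_insert_self _ _⟩
        rcases mem_insert.mp hm with h | h
        · omega
        · exact (gt x B hp1.2 _ h).2
    · rw [hR2, mem_powersetCard] at hZ
      refine ⟨⟨?_, hZ.2⟩, ?_⟩
      · intro y hy
        have := mem_Ico.mp (hZ.1 hy)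
        exact mem_range.mpr this.2
      · have hne : Z.Nonempty := card_pos.mp (by omega)
        have h1 := mem_Ico.mp (hZ.1 (mn_mem hne))
        have h2 := mem_Ico.mp (hZ.1 (mx_mem hne))
        omega
  have := card_le_card hsub
  rw [card_union_of_disjoint hdis, c1, c2] at this
  exact this

variable {H : Finset ℕ → Prop} {N r m : ℕ}

/-- the counting inequality -/
theorem local_nat (hr : 2 ≤ r) (hrm : r < m) {D : ℕ} (hD : D ≤ N) (hT : TransOn H N r)
    (hS : SlideOn H N r)
    (hK : ∀ Q ⊆ range N, Q.card = m → ∃ Z ⊆ Q, Z.card = r ∧ ¬ H Z) :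
    (N - D) * D.choose (r - 1) + D.choose r ≤
      (((range N).powersetCard r).filter fun Z => ¬ H Z).card + (m - r) * (D + 1).choose r := by
  set T := (range N).powersetCard (r - 1) with hTd
  have hRZ : ∀ Z ∈ Rs N r D, Z ⊆ range N ∧ Z.card = r := fun Z hZ =>
    mem_powersetCard.mp (mem_filter.mp hZ).1
  -- step A
  have hA : ∑ Z ∈ Rs N r D, (psi H N r (Z.erase (mx Z)) + (if H Z then 1 else 0)) ≤
      ∑ Z ∈ Rs N r D, psi H N r (Z.erase (mn Z)) := by
    refine sum_le_sum fun Z hZ => ?_
    have h1 := hRZ Z hZ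
    have hne : Z.Nonempty := card_pos.mp (by omega)
    exact psi_mono hr hT hS h1.1 h1.2 (mn_mem hne) (mx_mem hne) fun x hx => ⟨mn_le hx, le_mx hx⟩
  rw [sum_add_distrib, ← card_filter] at hA
  -- step B
  have m1 : ∀ Z ∈ Rs N r D, Z.erase (mn Z) ∈ T := by
    intro Z hZ
    have h1 := hRZ Z hZ
    have hne : Z.Nonempty := card_pos.mp (by omega)
    rw [hTd, mem_powersetCard, card_erase_of_mem (mn_mem hne), h1.2]
    exact ⟨(erase_subset _ _).trans h1.1, rfl⟩
  have m2 : ∀ Z ∈ Rs N r D, Z.erase (mx Z) ∈ T := by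
    intro Z hZ
    have h1 := hRZ Z hZ
    have hne : Z.Nonempty := card_pos.mp (by omega)
    rw [hTd, mem_powersetCard, card_erase_of_mem (mx_mem hne), h1.2]
    exact ⟨(erase_subset _ _).trans h1.1, rfl⟩
  have s1 : ∑ Z ∈ Rs N r D, psi H N r (Z.erase (mn Z)) =
      ∑ A ∈ T, ((Rs N r D).filter fun Z => Z.erase (mn Z) = A).card * psi H N r A := by
    rw [← sum_fiberwise_of_maps_to m1]
    refine sum_congr rfl fun A _ => ?_
    rw [← smul_eq_mul, ← sum_const]
    refine sum_congr rfl fun Z hZ => ?_
    rw [(mem_filter.mp hZ).2]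
  have s2 : ∑ Z ∈ Rs N r D, psi H N r (Z.erase (mx Z)) =
      ∑ A ∈ T, ((Rs N r D).filter fun Z => Z.erase (mx Z) = A).card * psi H N r A := by
    rw [← sum_fiberwise_of_maps_to m2]
    refine sum_congr rfl fun A _ => ?_
    rw [← smul_eq_mul, ← sum_const]
    refine sum_congr rfl fun Z hZ => ?_
    rw [(mem_filter.mp hZ).2]
  have hB : ∑ Z ∈ Rs N r D, psi H N r (Z.erase (mn Z)) ≤
      ∑ Z ∈ Rs N r D, psi H N r (Z.erase (mx Z)) + (m - r) * (D + 1).choose r := by
    rw [s1, s2]
    calc ∑ A ∈ T, ((Rs N r D).filter fun Z => Z.erase (mn Z) = A).card * psi H N r A ≤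
          ∑ A ∈ T, (((Rs N r D).filter fun Z => Z.erase (mx Z) = A).card * psi H N r A +
            (m - r) * (mn A + D + 1 - N)) := by
          refine sum_le_sum fun A hA => ?_
          have h1 := fib_le (D := D) hr hA
          have h2 := psi_le (H := H) (N := N) hrm hK A
          calc _ ≤ (((Rs N r D).filter fun Z => Z.erase (mx Z) = A).card + (mn A + D + 1 - N)) *
                psi H N r A := Nat.mul_le_mul_right _ h1
            _ = ((Rs N r D).filter fun Z => Z.erase (mx Z) = A).card * psi H N r A +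
                psi H N r A * (mn A + D + 1 - N) := by ring
            _ ≤ _ := Nat.add_le_add_left (Nat.mul_le_mul_right _ h2) _
      _ = ∑ A ∈ T, ((Rs N r D).filter fun Z => Z.erase (mx Z) = A).card * psi H N r A +
            (m - r) * ∑ A ∈ T, (mn A + D + 1 - N) := by
          rw [sum_add_distrib, mul_sum]
      _ ≤ _ := Nat.add_le_add_left (Nat.mul_le_mul_left _ (sum_exc hr hD)) _
  have hC : ((Rs N r D).filter fun Z => H Z).card ≤ (m - r) * (D + 1).choose r := by omega
  have hE : (Rs N r D).card = ((Rs N r D).filter fun Z => H Z).card +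
      ((Rs N r D).filter fun Z => ¬ H Z).card := by
    exact (card_filter_add_card_filter_not (s := Rs N r D) (fun Z => H Z)).symm
  have hF : ((Rs N r D).filter fun Z => ¬ H Z).card ≤
      (((range N).powersetCard r).filter fun Z => ¬ H Z).card := by
    refine card_le_card ?_
    intro Z hZ
    rw [mem_filter] at hZ ⊢
    exact ⟨(mem_filter.mp hZ.1).1, hZ.2⟩
  have hG := Rs_card (N := N) (D := D) hr hD
  omega

end Pool.Agent.Helper964_DD.RG
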