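import Pool.Agent.Helper964_DD.RG.Main

/-! The finite bound and the exact maximum for `m = q (r - 1) + 1`. -/

set_option autoImplicit false
open Finset
open scoped Classical

namespace Pool.Agent.Helper964_DD.RG

variable {n : ℕ}

theorem bound {r m : ℕ} (hr : 2 ≤ r) (hrm : r < m) {ρ : Fin n → ℕ} (hρ : Function.Injective ρ)
    {H : Finset (Finset (Fin n))} (hH : ∀ Z ∈ H, Z.card = r) (hK : KF r m H)
    (hB : ∀ P, ¬ Bad ρ r H P) {D : ℕ} (hD : D ≤ n) :
    H.card + ((n - D) * D.choose (r - 1) + D.choose r) ≤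
      n.choose r + (m - r) * (D + 1).choose r := by
  have hcu : (univ : Finset (Fin n)).card = n := by rw [card_univ, Fintype.card_fin]
  have hHsub : H ⊆ (univ : Finset (Fin n)).powersetCard r := fun Z hZ =>
    mem_powersetCard.mpr ⟨subset_univ _, hH Z hZ⟩
  rcases Nat.eq_zero_or_pos n with h0 | h0
  · subst h0
    have hD0 : D = 0 := by omega
    subst hD0
    have h1 : H.card ≤ (0 : ℕ).choose r := by
      have := card_le_card hHsub
      rwa [card_powersetCard, hcu] at this
    rw [Nat.sub_self, Nat.zero_mul, Nat.zero_add, Nat.choose_eq_zero_of_lt (by omega)]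
    rw [Nat.choose_eq_zero_of_lt (by omega)] at h1
    omega
  · have h1 := local_set hr hrm h0 hD hρ hK hcu (fun P _ => hB P)
    have h2 : ((((univ : Finset (Fin n)).powersetCard r \ H)).filter (· ⊆ univ)).card =
        n.choose r - H.card := by
      rw [filter_true_of_mem (fun Z _ => subset_univ Z), card_sdiff_of_subset hHsub,
        card_powersetCard, hcu]
    have h3 : H.card ≤ n.choose r := by
      have := card_le_card hHsub
      rwa [card_powersetCard, hcu] at this
    rw [h2] at h1
    omega

theorem bal_sum (n q r : ℕ) (hq : 1 ≤ q) :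
    ∑ i ∈ range q, ((n + i) / q).choose r =
      (n % q) * (n / q + 1).choose r + (q - n % q) * (n / q).choose r := by
  have hn : q * (n / q) + n % q = n := Nat.div_add_mod n q
  have ht : n % q < q := Nat.mod_lt _ (by omega)
  generalize n / q = L at hn ⊢
  generalize n % q = t at hn ht ⊢
  obtain ⟨u, rfl⟩ : ∃ u, q = u + t := ⟨q - t, by omega⟩
  rw [sum_range_add]
  have h1 : ∑ i ∈ range u, ((n + i) / (u + t)).choose r = u * L.choose r := by
    rw [sum_congr rfl (g := fun _ => L.choose r), sum_const, card_range, smul_eq_mul]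
    intro i hi
    have hi' := mem_range.mp hi
    congr 1
    refine Nat.div_eq_of_lt_le (by rw [Nat.mul_comm]; omega) ?_
    rw [Nat.add_mul, Nat.mul_comm L]
    omega
  have h2 : ∑ i ∈ range t, ((n + (u + i)) / (u + t)).choose r = t * (L + 1).choose r := by
    rw [sum_congr rfl (g := fun _ => (L + 1).choose r), sum_const, card_range, smul_eq_mul]
    intro i hi
    have hi' := mem_range.mp hi
    congr 1
    refine Nat.div_eq_of_lt_le ?_ ?_
    · rw [Nat.add_mul, Nat.mul_comm L]
      omega
    · rw [Nat.add_mul, Nat.add_mul, Nat.mul_comm L]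
      omega
  rw [h1, h2, Nat.add_sub_cancel]
  ring

/-- the main identity -/
theorem key_id {q s t L : ℕ} (hq : 1 ≤ q) (ht : t < q) :
    (q * L + t - L) * L.choose s + L.choose (s + 1) =
      (q - 1) * s * (L + 1).choose (s + 1) +
        (t * (L + 1).choose (s + 1) + (q - t) * L.choose (s + 1)) := by
  obtain ⟨p, rfl⟩ : ∃ p, q = p + 1 := ⟨q - 1, by omega⟩
  obtain ⟨u, hu⟩ : ∃ u, p + 1 = t + u := ⟨p + 1 - t, by omega⟩
  have h1 : (p + 1) * L + t - L = p * L + t := by
    have : (p + 1) * L = p * L + L := by ring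
    omega
  have h2 : p + 1 - t = u := by omega
  have h3 : L * L.choose s = (s + 1) * L.choose (s + 1) + s * L.choose s := by
    have h4 := Nat.choose_succ_right_eq L s
    rcases le_or_gt s L with h | h
    · obtain ⟨d, rfl⟩ : ∃ d, L = s + d := ⟨L - s, by omega⟩
      rw [Nat.add_sub_cancel_left] at h4
      rw [Nat.mul_comm (s + 1), h4]
      ring
    · rw [Nat.choose_eq_zero_of_lt h, Nat.choose_eq_zero_of_lt (show L < s + 1 by omega)]
      ring
  rw [h1, h2, Nat.add_sub_cancel, Nat.choose_succ_succ' L s]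
  generalize L.choose s = A at h3 ⊢
  generalize L.choose (s + 1) = B at h3 ⊢
  have h5 : (p * L + t) * A = p * (L * A) + t * A := by ring
  rw [h5, h3]
  have h6 : (p + 1) * B = (t + u) * B := by rw [hu]
  nlinarith

theorem exact_upper {r m q : ℕ} (hr : 2 ≤ r) (hrm : r < m) (hm : m = q * (r - 1) + 1)
    {ρ : Fin n → ℕ} (hρ : Function.Injective ρ)
    {H : Finset (Finset (Fin n))} (hH : ∀ Z ∈ H, Z.card = r) (hK : KF r m H)
    (hB : ∀ P, ¬ Bad ρ r H P) :
    H.card + ∑ i ∈ range q, ((n + i) / q).choose r ≤ n.choose r := by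
  have hq : 1 ≤ q := by
    rcases Nat.eq_zero_or_pos q with h | h
    · subst h; omega
    · exact h
  have h1 := bound hr hrm hρ hH hK hB (D := n / q) (Nat.div_le_self _ _)
  obtain ⟨s, rfl⟩ : ∃ s, r = s + 1 := ⟨r - 1, by omega⟩
  have h2 := key_id (s := s) (L := n / q) hq (Nat.mod_lt n (show q > 0 by omega))
  rw [Nat.div_add_mod] at h2
  have h3 : m - (s + 1) = (q - 1) * s := by
    rw [hm, Nat.add_sub_cancel, Nat.sub_mul, Nat.one_mul]
    omega
  rw [Nat.add_sub_cancel, h2, h3] at h1
  rw [bal_sum _ _ _ hq]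
  omega

/-! The example. -/

/-- the index of the class of the vertex `v`: `t` intervals of `L + 1` points, then intervals of `L`
points -/
def cls (L t v : ℕ) : ℕ := if v < t * (L + 1) then v / (L + 1) else t + (v - t * (L + 1)) / L

theorem cls_lt {L t v : ℕ} (h : v < t * (L + 1)) : cls L t v < t := by
  unfold cls
  rw [if_pos h, Nat.div_lt_iff_lt_mul (by omega)]
  exact h

theorem le_cls {L t v : ℕ} (h : t * (L + 1) ≤ v) : t ≤ cls L t v := by
  unfold cls
  rw [if_neg (by omega)]
  exact Nat.le_add_right _ _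

theorem cls_mono {L t v w : ℕ} (h : v ≤ w) : cls L t v ≤ cls L t w := by
  rcases lt_or_ge w (t * (L + 1)) with h1 | h1
  · unfold cls
    rw [if_pos h1, if_pos (by omega)]
    exact Nat.div_le_div_right h
  · rcases lt_or_ge v (t * (L + 1)) with h2 | h2
    · exact (cls_lt h2).le.trans (le_cls h1)
    · unfold cls
      rw [if_neg (by omega), if_neg (by omega)]
      exact Nat.add_le_add_left (Nat.div_le_div_right (by omega)) _

theorem cls_range {L t q v : ℕ} (ht : t < q) (hv : v < q * L + t) : cls L t v < q := by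
  rcases lt_or_ge v (t * (L + 1)) with h2 | h2
  · exact (cls_lt h2).trans ht
  · obtain ⟨u, rfl⟩ : ∃ u, q = t + u := ⟨q - t, by omega⟩
    have h3 : (t + u) * L + t = t * (L + 1) + u * L := by ring
    have hL : 0 < L := by
      rcases Nat.eq_zero_or_pos L with h | h
      · subst h; omega
      · exact h
    unfold cls
    rw [if_neg (by omega)]
    have : (v - t * (L + 1)) / L < u := by
      rw [Nat.div_lt_iff_lt_mul hL]
      omega
    omega

theorem cls_size {L t q i : ℕ} (hn : n = q * L + t) (ht : t < q) :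
    ((univ : Finset (Fin n)).filter fun v => cls L t v.1 = i).card ≤ if i < t then L + 1 else L := by
  split_ifs with h
  · have h3 : ((univ : Finset (Fin n)).filter fun v => cls L t v.1 = i).card ≤ (range (L + 1)).card := by
      refine card_le_card_of_injOn (fun v => v.1 % (L + 1)) ?_ ?_
      · intro v _
        exact mem_coe.2 (mem_range.2 (Nat.mod_lt _ (by omega)))
      · intro v hv w hw hvw
        have a1 := (mem_filter.1 (mem_coe.1 hv)).2
        have a2 := (mem_filter.1 (mem_coe.1 hw)).2
        have b1 : v.1 < t * (L + 1) := by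
          by_contra hc
          have := le_cls (L := L) (t := t) (v := v.1) (by omega)
          omega
        have b2 : w.1 < t * (L + 1) := by
          by_contra hc
          have := le_cls (L := L) (t := t) (v := w.1) (by omega)
          omega
        unfold cls at a1 a2
        rw [if_pos b1] at a1
        rw [if_pos b2] at a2
        refine Fin.ext ?_
        rw [← Nat.div_add_mod v.1 (L + 1), ← Nat.div_add_mod w.1 (L + 1), a1, a2]
        have h' : v.1 % (L + 1) = w.1 % (L + 1) := hvw
        rw [h']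
    rwa [card_range] at h3
  · have h3 : ((univ : Finset (Fin n)).filter fun v => cls L t v.1 = i).card ≤ (range L).card := by
      have hb : ∀ v ∈ (univ : Finset (Fin n)).filter fun v => cls L t v.1 = i,
          t * (L + 1) ≤ v.1 ∧ 0 < L ∧ (v.1 - t * (L + 1)) / L = i - t := by
        intro v hv
        have a1 := (mem_filter.1 hv).2
        have b1 : t * (L + 1) ≤ v.1 := by
          by_contra hc
          have := cls_lt (L := L) (t := t) (v := v.1) (by omega)
          omega
        refine ⟨b1, ?_, ?_⟩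
        · rcases Nat.eq_zero_or_pos L with h0 | h0
          · subst h0
            have := v.2
            omega
          · exact h0
        · unfold cls at a1
          rw [if_neg (by omega)] at a1
          omega
      refine card_le_card_of_injOn (fun v => (v.1 - t * (L + 1)) % L) ?_ ?_
      · intro v hv
        exact mem_coe.2 (mem_range.2 (Nat.mod_lt _ (hb v (mem_coe.mp hv)).2.1))
      · intro v hv w hw hvw
        obtain ⟨c1, _, c2⟩ := hb v (mem_coe.mp hv)
        obtain ⟨d1, _, d2⟩ := hb w (mem_coe.mp hw)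
        have e1 := Nat.div_add_mod (v.1 - t * (L + 1)) L
        have e2 := Nat.div_add_mod (w.1 - t * (L + 1)) L
        have h' : (v.1 - t * (L + 1)) % L = (w.1 - t * (L + 1)) % L := hvw
        rw [c2, h'] at e1
        rw [d2] at e2
        refine Fin.ext ?_
        omega
    rwa [card_range] at h3

/-- the `r`-sets inside a class of `c` -/
noncomputable def stdc (n r : ℕ) (c : ℕ → ℕ) : Finset (Finset (Fin n)) :=
  ((univ : Finset (Fin n)).powersetCard r).filter fun Z => ∃ i : ℕ, ∀ v ∈ Z, c v.1 = i

theorem stdc_card {r q L t : ℕ} (hr : 1 ≤ r) (hn : n = q * L + t) (ht : t < q) :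
    (stdc n r (cls L t)).card ≤ t * (L + 1).choose r + (q - t) * L.choose r := by
  have h1 : stdc n r (cls L t) ⊆ (range q).biUnion fun i =>
      ((univ : Finset (Fin n)).filter fun v => cls L t v.1 = i).powersetCard r := by
    intro Z hZ
    unfold stdc at hZ
    rw [mem_filter, mem_powersetCard] at hZ
    obtain ⟨⟨_, hZ⟩, i, hi⟩ := hZ
    rw [mem_biUnion]
    obtain ⟨v, hv⟩ : Z.Nonempty := card_pos.1 (by omega)
    refine ⟨i, ?_, ?_⟩
    · rw [mem_range, ← hi v hv]
      exact cls_range ht (by have := v.2; omega)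
    · rw [mem_powersetCard]
      exact ⟨fun w hw => mem_filter.2 ⟨mem_univ _, hi w hw⟩, hZ⟩
  calc (stdc n r (cls L t)).card ≤ _ := card_le_card h1
    _ ≤ _ := card_biUnion_le
    _ ≤ ∑ i ∈ range q, (if i < t then L + 1 else L).choose r := by
        refine sum_le_sum fun i _ => ?_
        rw [card_powersetCard]
        exact Nat.choose_le_choose r (cls_size hn ht)
    _ = _ := by
        obtain ⟨u, rfl⟩ : ∃ u, q = t + u := ⟨q - t, by omega⟩
        rw [sum_range_add, Nat.add_sub_cancel_left]
        congr 1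
        · rw [sum_congr rfl (g := fun _ => (L + 1).choose r), sum_const, card_range, smul_eq_mul]
          intro i hi
          rw [if_pos (mem_range.mp hi)]
        · rw [sum_congr rfl (g := fun _ => L.choose r), sum_const, card_range, smul_eq_mul]
          intro i _
          rw [if_neg (by omega)]

theorem stdc_kf {r m q : ℕ} {c : ℕ → ℕ} (hc : ∀ v : Fin n, c v.1 < q) (hm : q * (r - 1) < m) :
    KF r m ((univ : Finset (Fin n)).powersetCard r \ stdc n r c) := by
  intro Y hY
  have h1 : ∀ v ∈ Y, c v.1 ∈ range q := fun v _ => mem_range.mpr (hc v)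
  obtain ⟨i, _, h2⟩ := exists_lt_card_fiber_of_mul_lt_card_of_maps_to h1
    (by rw [card_range, hY]; exact hm)
  obtain ⟨Z, hZ, hZc⟩ := exists_subset_card_eq (s := Y.filter fun v => c v.1 = i) (n := r)
    (by omega)
  refine ⟨Z, hZ.trans (filter_subset _ _), hZc, fun h => (Finset.mem_sdiff.mp h).2 ?_⟩
  unfold stdc
  rw [mem_filter, mem_powersetCard]
  exact ⟨⟨subset_univ _, hZc⟩, i, fun v hv => (mem_filter.1 (hZ hv)).2⟩

theorem stdc_bad {r : ℕ} {c : ℕ → ℕ} (hc : ∀ v w : ℕ, v ≤ w → c v ≤ c w) (hr : 2 ≤ r)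
    (P : Finset (Fin n)) :
    ¬ Bad (fun v => v.1) r ((univ : Finset (Fin n)).powersetCard r \ stdc n r c) P := by
  rintro ⟨hPc, a, ha, b, hb, z, hz, haz, hba, hbmin, hHz, hrest⟩
  have hne : c a.1 ≠ c z.1 := by
    intro h
    refine (Finset.mem_sdiff.mp hHz).2 ?_
    unfold stdc
    rw [mem_filter]
    refine ⟨(Finset.mem_sdiff.mp hHz).1, c a.1, fun v hv => ?_⟩
    have h1 := haz v (mem_erase.mp hv).2
    have h2 : c a.1 ≤ c v.1 := hc _ _ h1.1
    have h3 : c v.1 ≤ c z.1 := hc _ _ h1.2
    omega
  have key : ∀ x ∈ P, x ≠ a → x ≠ z →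
      P.erase x ∈ (univ : Finset (Fin n)).powersetCard r \ stdc n r c := by
    intro x hx hxa hxz
    rw [Finset.mem_sdiff, mem_powersetCard]
    refine ⟨⟨subset_univ _, by rw [card_erase_of_mem hx]; omega⟩, fun h => ?_⟩
    unfold stdc at h
    obtain ⟨i, hi⟩ := (mem_filter.mp h).2
    exact hne ((hi a (mem_erase.mpr ⟨hxa.symm, ha⟩)).trans (hi z (mem_erase.mpr ⟨hxz.symm, hz⟩)).symm)
  rcases hrest with h | ⟨h1, x, hx, h2⟩
  · refine h (key b hb hba fun hbz => ?_)
    have : P ⊆ {a, z} := by
      intro x hx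
      rw [mem_insert, mem_singleton]
      by_cases hxa : x = a
      · exact Or.inl hxa
      · right
        have h3 := hbmin x hx hxa
        have h4 := (haz x hx).2
        simp only at h3 h4
        rw [hbz] at h3
        exact Fin.ext (le_antisymm h4 h3)
    have h5 := card_le_card this
    have h6 : ({a, z} : Finset (Fin n)).card ≤ 2 := card_le_two
    omega
  · by_cases hxa : x = a
    · rw [hxa] at h2; exact h2 h1
    · by_cases hxz : x = z
      · rw [hxz] at h2; exact h2 hHz
      · exact h2 (key x hx hxa hxz)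

theorem exact_lower (n : ℕ) {r q : ℕ} (hr : 2 ≤ r) (hq : 1 ≤ q) :
    ∃ H : Finset (Finset (Fin n)), (∀ Z ∈ H, Z.card = r) ∧ KF r (q * (r - 1) + 1) H ∧
      (∀ P, ¬ Bad (fun v => v.1) r H P) ∧
      n.choose r ≤ H.card + ∑ i ∈ range q, ((n + i) / q).choose r := by
  have hn : q * (n / q) + n % q = n := Nat.div_add_mod n q
  have ht : n % q < q := Nat.mod_lt _ (by omega)
  rw [bal_sum _ _ _ hq]
  generalize n / q = L at hn ⊢
  generalize n % q = t at hn ht ⊢
  refine ⟨(univ : Finset (Fin n)).powersetCard r \ stdc n r (cls L t),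
    fun Z hZ => (mem_powersetCard.mp (Finset.mem_sdiff.mp hZ).1).2,
    stdc_kf (fun v => cls_range ht (by have := v.2; omega)) (by omega),
    stdc_bad (fun v w h => cls_mono h) hr, ?_⟩
  have hsub : stdc n r (cls L t) ⊆ (univ : Finset (Fin n)).powersetCard r := filter_subset _ _
  have h1 := stdc_card (r := r) (by omega) hn.symm ht
  rw [card_sdiff_of_subset hsub, card_powersetCard, card_univ, Fintype.card_fin]
  omega

end Pool.Agent.Helper964_DD.RG
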