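import Pool.Agent.Helper964_DD.RG.Clique

/-! Labels. -/

set_option autoImplicit false
open Finset
open scoped Classical

namespace Pool.Agent.Helper964_DD.RG

variable {H : Finset ℕ → Prop} {N r m : ℕ}

/-- the largest size of a clique with the last points `A` -/
noncomputable def sz (H : Finset ℕ → Prop) (N r : ℕ) (A : Finset ℕ) : ℕ :=
  ((range N).powerset.filter fun Q => Clq H N r Q ∧ Top A Q).sup card

/-- the label -/
noncomputable def psi (H : Finset ℕ → Prop) (N r : ℕ) (A : Finset ℕ) : ℕ := sz H N r A + 1 - r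

theorem le_sz {Q A : Finset ℕ} (hQ : Clq H N r Q) (hA : Top A Q) : Q.card ≤ sz H N r A := by
  unfold sz
  exact le_sup (f := card) (mem_filter.mpr ⟨mem_powerset.mpr hQ.1, hQ, hA⟩)

theorem self_le_sz {A : Finset ℕ} (hA : A ⊆ range N) (hAc : A.card + 1 = r) :
    A.card ≤ sz H N r A := by
  refine le_sz ⟨hA, fun Z hZ hZc => ?_⟩ ⟨Subset.refl _, fun x hx hxA => absurd hx hxA⟩
  have := card_le_card hZ
  omega

theorem exists_sz {A : Finset ℕ} (hA : A ⊆ range N) (hAc : A.card + 1 = r) :
    ∃ Q, Clq H N r Q ∧ Top A Q ∧ Q.card = sz H N r A := by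
  have hne : ((range N).powerset.filter fun Q => Clq H N r Q ∧ Top A Q).Nonempty := by
    refine ⟨A, mem_filter.mpr ⟨mem_powerset.mpr hA, ⟨hA, fun Z hZ hZc => ?_⟩,
      ⟨Subset.refl _, fun x hx hxA => absurd hx hxA⟩⟩⟩
    have := card_le_card hZ
    omega
  obtain ⟨Q, hQ, hQs⟩ := exists_mem_eq_sup _ hne card
  exact ⟨Q, (mem_filter.mp hQ).2.1, (mem_filter.mp hQ).2.2, hQs.symm⟩

theorem psi_le (hrm : r < m) (hK : ∀ Q ⊆ range N, Q.card = m → ∃ Z ⊆ Q, Z.card = r ∧ ¬ H Z)
    (A : Finset ℕ) : psi H N r A ≤ m - r := by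
  have h : sz H N r A ≤ m - 1 := by
    unfold sz
    refine Finset.sup_le fun Q hQ => ?_
    have hQc := (mem_filter.mp hQ).2.1
    by_contra hlt
    push Not at hlt
    obtain ⟨Q', hQ', hQ'c⟩ := exists_subset_card_eq (s := Q) (n := m) (by omega)
    obtain ⟨Z, hZ, hZc, hZH⟩ := hK Q' (hQ'.trans hQc.1) hQ'c
    exact hZH (hQc.2 Z (hZ.trans hQ') hZc)
  unfold psi
  omega

/-- the first `r - 1` points have a label at most the one of the last `r - 1` points -/
theorem psi_mono (hr : 2 ≤ r) (hT : TransOn H N r) (hS : SlideOn H N r) {Z : Finset ℕ}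
    (hZ : Z ⊆ range N) (hZc : Z.card = r) {a z : ℕ} (ha : a ∈ Z) (hz : z ∈ Z)
    (haz : ∀ x ∈ Z, a ≤ x ∧ x ≤ z) :
    psi H N r (Z.erase z) + (if H Z then 1 else 0) ≤ psi H N r (Z.erase a) := by
  have haz' : a ≠ z := by
    intro h
    have : Z ⊆ {a} := by
      intro x hx
      rw [mem_singleton]
      have := haz x hx
      omega
    have := card_le_card this
    rw [card_singleton] at this
    omega
  have hltz : ∀ x ∈ Z.erase z, x < z := fun x hx =>
    lt_of_le_of_ne (haz x (mem_erase.mp hx).2).2 (mem_erase.mp hx).1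
  have haA : a ∈ Z.erase z := mem_erase.mpr ⟨haz', ha⟩
  have hAc : (Z.erase z).card + 1 = r := by rw [card_erase_of_mem hz]; omega
  have hAc' : (Z.erase a).card + 1 = r := by rw [card_erase_of_mem ha]; omega
  have hAs : Z.erase z ⊆ range N := (erase_subset _ _).trans hZ
  have hAs' : Z.erase a ⊆ range N := (erase_subset _ _).trans hZ
  have hzN : z < N := mem_range.mp (hZ hz)
  have b1 := self_le_sz (H := H) hAs hAc
  have b2 := self_le_sz (H := H) hAs' hAc'
  obtain ⟨Q, hQ, hQA, hQc⟩ := exists_sz (H := H) hAs hAc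
  by_cases hH : H Z
  · have hx := ext_clq hr hT hQ hQA hAc hzN hltz (by rwa [insert_erase hz])
    have hzQ : z ∉ Q := fun h => lt_irrefl _ (hx.2 z h)
    have ht : Top (Z.erase a) (insert z Q) := by
      refine ⟨?_, ?_⟩
      · intro y hy
        rw [mem_erase] at hy
        by_cases hyz : y = z
        · rw [hyz]; exact mem_insert_self _ _
        · exact mem_insert_of_mem (hQA.1 (mem_erase.mpr ⟨hyz, hy.2⟩))
      · intro x hx1 hx2 b hb
        rw [mem_erase] at hb
        have hxz : x ≠ z := by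
          rintro rfl
          exact hx2 (mem_erase.mpr ⟨haz'.symm, hz⟩)
        have hxQ : x ∈ Q := by
          rcases mem_insert.mp hx1 with h | h
          · exact absurd h hxz
          · exact h
        by_cases hxa : x = a
        · rw [hxa]
          exact lt_of_le_of_ne (haz b hb.2).1 hb.1.symm
        · have hxZ : x ∉ Z := fun h => hx2 (mem_erase.mpr ⟨hxa, h⟩)
          have hxA : x ∉ Z.erase z := fun h => hxZ (mem_erase.mp h).2
          by_cases hbz : b = z
          · rw [hbz]; exact hx.2 x hxQ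
          · exact hQA.2 x hxQ hxA b (mem_erase.mpr ⟨hbz, hb.2⟩)
    have h1 := le_sz hx.1 ht
    rw [card_insert_of_notMem hzQ] at h1
    rw [if_pos hH]
    unfold psi
    omega
  · rw [if_neg hH]
    by_cases hQr : r ≤ Q.card
    · have hx := slide_clq hr hT hS hQ hQA hAc hQr haA
        (fun x hx => (haz x (mem_erase.mp hx).2).1) hzN hltz
      have hzQ : z ∉ Q.erase a := fun h => lt_irrefl _ (hx.2 z (mem_erase.mp h).2)
      have ht : Top (Z.erase a) (insert z (Q.erase a)) := by
        refine ⟨?_, ?_⟩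
        · intro y hy
          rw [mem_erase] at hy
          by_cases hyz : y = z
          · rw [hyz]; exact mem_insert_self _ _
          · exact mem_insert_of_mem (mem_erase.mpr ⟨hy.1, hQA.1 (mem_erase.mpr ⟨hyz, hy.2⟩)⟩)
        · intro x hx1 hx2 b hb
          rw [mem_erase] at hb
          have hxz : x ≠ z := by
            rintro rfl
            exact hx2 (mem_erase.mpr ⟨haz'.symm, hz⟩)
          have hxQ : x ≠ a ∧ x ∈ Q := by
            rcases mem_insert.mp hx1 with h | h
            · exact absurd h hxz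
            · exact mem_erase.mp h
          have hxZ : x ∉ Z := fun h => hx2 (mem_erase.mpr ⟨hxQ.1, h⟩)
          have hxA : x ∉ Z.erase z := fun h => hxZ (mem_erase.mp h).2
          by_cases hbz : b = z
          · rw [hbz]; exact hx.2 x hxQ.2
          · exact hQA.2 x hxQ.2 hxA b (mem_erase.mpr ⟨hbz, hb.2⟩)
      have h1 := le_sz hx.1 ht
      rw [card_insert_of_notMem hzQ, card_erase_of_mem (hQA.1 haA)] at h1
      unfold psi
      omega
    · unfold psi
      omega

end Pool.Agent.Helper964_DD.RG
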