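import Pool.Agent.Helper964_DD.RG.Count
import Pool.Agent.Helper964_DD.RG.Asym
import Pool.Agent.Helper408_EX.Avg

/-! Transfer to arbitrary orderings, and averaging. -/

set_option autoImplicit false
open Finset Filter Topology
open scoped Classical

namespace Pool.Agent.Helper964_DD.RG

variable {n : ℕ}

/-- every `m`-set contains a non-edge -/
def KF (r m : ℕ) (H : Finset (Finset (Fin n))) : Prop :=
  ∀ Q : Finset (Fin n), Q.card = m → ∃ Z ⊆ Q, Z.card = r ∧ Z ∉ H

/-- bad sets -/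
def Bad (ρ : Fin n → ℕ) (r : ℕ) (H : Finset (Finset (Fin n))) (P : Finset (Fin n)) : Prop :=
  P.card = r + 1 ∧ ∃ a ∈ P, ∃ b ∈ P, ∃ z ∈ P, (∀ x ∈ P, ρ a ≤ ρ x ∧ ρ x ≤ ρ z) ∧ b ≠ a ∧
    (∀ x ∈ P, x ≠ a → ρ b ≤ ρ x) ∧ P.erase z ∈ H ∧
    (P.erase b ∉ H ∨ (P.erase a ∈ H ∧ ∃ x ∈ P, P.erase x ∉ H))

theorem enum {ρ : Fin n → ℕ} (hρ : Function.Injective ρ) {S : Finset (Fin n)} {N : ℕ}
    (hS : S.card = N) (hN : 1 ≤ N) : ∃ g : ℕ → Fin n, (∀ i, i < N → g i ∈ S) ∧
      ∀ i j, i < j → j < N → ρ (g i) < ρ (g j) := by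
  obtain ⟨v0, hv0⟩ : S.Nonempty := card_pos.mp (by omega)
  have hT : (S.image ρ).card = N := by rw [card_image_of_injective _ hρ, hS]
  have h1 : ∀ i : Fin N, ∃ v ∈ S, ρ v = (S.image ρ).orderEmbOfFin hT i := by
    intro i
    exact mem_image.mp ((S.image ρ).orderEmbOfFin_mem hT i)
  choose f hf using h1
  refine ⟨fun i => if h : i < N then f ⟨i, h⟩ else v0, ?_, ?_⟩
  · intro i hi
    simp only [hi, dif_pos]
    exact (hf _).1
  · intro i j hij hj
    have hi : i < N := hij.trans hj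
    simp only [hi, hj, dif_pos]
    rw [(hf _).2, (hf _).2]
    exact ((S.image ρ).orderEmbOfFin hT).strictMono (by rw [Fin.lt_def]; exact hij)

theorem image_erase_of {g : ℕ → Fin n} {P : Finset ℕ} (hg : Set.InjOn g P) {x : ℕ} (hx : x ∈ P) :
    (P.erase x).image g = (P.image g).erase (g x) := by
  ext y
  simp only [mem_image, mem_erase]
  constructor
  · rintro ⟨u, ⟨hux, hu⟩, rfl⟩
    exact ⟨fun h => hux (hg (mem_coe.mpr hu) (mem_coe.mpr hx) h), u, hu, rfl⟩
  · rintro ⟨hy, u, hu, rfl⟩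
    exact ⟨u, ⟨fun h => hy (by rw [h]), hu⟩, rfl⟩

/-- the counting inequality inside a set without bad sets -/
theorem local_set {r m N D : ℕ} (hr : 2 ≤ r) (hrm : r < m) (hN : 1 ≤ N) (hD : D ≤ N)
    {ρ : Fin n → ℕ} (hρ : Function.Injective ρ) {H : Finset (Finset (Fin n))}
    (hK : KF r m H) {S : Finset (Fin n)} (hS : S.card = N) (hB : ∀ P ⊆ S, ¬ Bad ρ r H P) :
    (N - D) * D.choose (r - 1) + D.choose r ≤
      ((((univ : Finset (Fin n)).powersetCard r \ H)).filter (· ⊆ S)).card +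
        (m - r) * (D + 1).choose r := by
  obtain ⟨g, hgS, hgm⟩ := enum hρ hS hN
  have hmono : ∀ i j, i ≤ j → j < N → ρ (g i) ≤ ρ (g j) := by
    intro i j hij hj
    rcases hij.lt_or_eq with h | h
    · exact (hgm i j h hj).le
    · rw [h]
  have hinj : ∀ P : Finset ℕ, P ⊆ range N → Set.InjOn g P := by
    intro P hP i hi j hj h
    have hi' := mem_range.mp (hP (mem_coe.mp hi))
    have hj' := mem_range.mp (hP (mem_coe.mp hj))
    rcases lt_trichotomy i j with h1 | h1 | h1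
    · have := hgm i j h1 hj'
      rw [h] at this
      exact absurd this (lt_irrefl _)
    · exact h1
    · have := hgm j i h1 hi'
      rw [h] at this
      exact absurd this (lt_irrefl _)
  have himS : ∀ P : Finset ℕ, P ⊆ range N → P.image g ⊆ S := by
    intro P hP y hy
    obtain ⟨i, hi, rfl⟩ := mem_image.mp hy
    exact hgS i (mem_range.mp (hP hi))
  set H' : Finset ℕ → Prop := fun Z => Z.image g ∈ H with hH'
  have hcard : ∀ P : Finset ℕ, P ⊆ range N → (P.image g).card = P.card := fun P hP =>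
    card_image_of_injOn (hinj P hP)
  -- the order conditions are transferred
  have htr : ∀ P ⊆ range N, ∀ a ∈ P, ∀ z ∈ P, (∀ x ∈ P, a ≤ x ∧ x ≤ z) →
      ∀ x ∈ P.image g, ρ (g a) ≤ ρ x ∧ ρ x ≤ ρ (g z) := by
    intro P hP a ha z hz h x hx
    obtain ⟨u, hu, rfl⟩ := mem_image.mp hx
    exact ⟨hmono _ _ (h u hu).1 (mem_range.mp (hP hu)), hmono _ _ (h u hu).2 (mem_range.mp (hP hz))⟩
  have htr2 : ∀ P ⊆ range N, ∀ a ∈ P, ∀ b ∈ P, (∀ x ∈ P, x ≠ a → b ≤ x) →
      ∀ x ∈ P.image g, x ≠ g a → ρ (g b) ≤ ρ x := by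
    intro P hP a ha b hb h x hx hxa
    obtain ⟨u, hu, rfl⟩ := mem_image.mp hx
    exact hmono _ _ (h u hu (fun h => hxa (by rw [h]))) (mem_range.mp (hP hu))
  have hT : TransOn H' N r := by
    intro P hP hPc a ha z hz haz h1 h2 x hx
    by_contra hcon
    have e1 : P.image g ⊆ S := himS P hP
    have hne : (P.erase a).Nonempty := by
      refine card_pos.mp ?_
      rw [card_erase_of_mem ha]; omega
    obtain ⟨b, hb, hbmin⟩ : ∃ b ∈ P.erase a, ∀ y ∈ P.erase a, b ≤ y :=
      ⟨(P.erase a).min' hne, (P.erase a).min'_mem hne, fun y hy => (P.erase a).min'_le y hy⟩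
    have hbP := (mem_erase.mp hb).2
    refine hB _ e1 ⟨by rw [hcard P hP, hPc], g a, mem_image_of_mem g ha, g b,
      mem_image_of_mem g hbP, g z, mem_image_of_mem g hz, htr P hP a ha z hz haz, ?_,
      htr2 P hP a ha b hbP (fun y hy hya => hbmin y (mem_erase.mpr ⟨hya, hy⟩)), ?_, Or.inr ⟨?_, g x,
        mem_image_of_mem g hx, ?_⟩⟩
    · intro h
      exact (mem_erase.mp hb).1 (hinj P hP (mem_coe.mpr hbP) (mem_coe.mpr ha) h)
    · rw [← image_erase_of (hinj P hP) hz]; exact h1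
    · rw [← image_erase_of (hinj P hP) ha]; exact h2
    · rw [← image_erase_of (hinj P hP) hx]; exact hcon
  have hSl : SlideOn H' N r := by
    intro P hP hPc a ha b hb z hz haz hba hbmin h1
    by_contra hcon
    refine hB _ (himS P hP) ⟨by rw [hcard P hP, hPc], g a, mem_image_of_mem g ha, g b,
      mem_image_of_mem g hb, g z, mem_image_of_mem g hz, htr P hP a ha z hz haz, ?_,
      htr2 P hP a ha b hb hbmin, ?_, Or.inl ?_⟩
    · intro h
      exact hba (hinj P hP (mem_coe.mpr hb) (mem_coe.mpr ha) h)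
    · rw [← image_erase_of (hinj P hP) hz]; exact h1
    · rw [← image_erase_of (hinj P hP) hb]; exact hcon
  have hKN : ∀ Q ⊆ range N, Q.card = m → ∃ Z ⊆ Q, Z.card = r ∧ ¬ H' Z := by
    intro Q hQ hQc
    obtain ⟨Z, hZ, hZc, hZH⟩ := hK (Q.image g) (by rw [hcard Q hQ, hQc])
    have e : (Q.filter fun i => g i ∈ Z).image g = Z := by
      ext y
      simp only [mem_image, mem_filter]
      constructor
      · rintro ⟨i, ⟨_, hi⟩, rfl⟩; exact hi
      · intro hy
        obtain ⟨i, hi, rfl⟩ := mem_image.mp (hZ hy)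
        exact ⟨i, ⟨hi, hy⟩, rfl⟩
    have hs : (Q.filter fun i => g i ∈ Z) ⊆ range N := (filter_subset _ _).trans hQ
    refine ⟨Q.filter fun i => g i ∈ Z, filter_subset _ _, ?_, ?_⟩
    · rw [← hcard _ hs, e, hZc]
    · show (Q.filter fun i => g i ∈ Z).image g ∉ H
      rw [e]; exact hZH
  have hmain := local_nat hr hrm hD hT hSl hKN
  refine hmain.trans (Nat.add_le_add_right ?_ _)
  have hfin : (((range N).powersetCard r).filter fun Z => Z.image g ∉ H).card ≤
      ((((univ : Finset (Fin n)).powersetCard r \ H)).filter (· ⊆ S)).card := by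
    refine card_le_card_of_injOn (fun Z => Z.image g) ?_ ?_
    · intro Z hZ
      obtain ⟨h1, h2⟩ := mem_filter.mp (mem_coe.mp hZ)
      rw [mem_powersetCard] at h1
      rw [mem_coe, mem_filter, Finset.mem_sdiff, mem_powersetCard]
      exact ⟨⟨⟨subset_univ _, by rw [hcard Z h1.1, h1.2]⟩, h2⟩, himS Z h1.1⟩
    · intro Z hZ Z' hZ' h
      have h1 := mem_powersetCard.mp (mem_filter.mp (mem_coe.mp hZ)).1
      have h1' := mem_powersetCard.mp (mem_filter.mp (mem_coe.mp hZ')).1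
      simp only at h
      have hU : Set.InjOn g (range N : Finset ℕ) := hinj _ (Subset.refl _)
      ext i
      constructor
      · intro hi
        have : g i ∈ Z'.image g := by rw [← h]; exact mem_image_of_mem g hi
        obtain ⟨j, hj, hji⟩ := mem_image.mp this
        have := hU (mem_coe.mpr (h1'.1 hj)) (mem_coe.mpr (h1.1 hi)) hji
        rwa [← this]
      · intro hi
        have : g i ∈ Z.image g := by rw [h]; exact mem_image_of_mem g hi
        obtain ⟨j, hj, hji⟩ := mem_image.mp this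
        have := hU (mem_coe.mpr (h1.1 hj)) (mem_coe.mpr (h1'.1 hi)) hji
        rwa [← this]
  refine le_trans (le_of_eq ?_) hfin
  congr!

/-- the upper bound -/
theorem upper {r m : ℕ} (hr : 2 ≤ r) (hrm : r < m) {ε : ℝ} (hε : 0 < ε) :
    ∃ δ : ℝ, 0 < δ ∧ ∃ n0 : ℕ, ∀ n : ℕ, n0 ≤ n → ∀ H : Finset (Finset (Fin n)),
      (∀ Z ∈ H, Z.card = r) → KF r m H →
      (∃ ρ : Fin n → ℕ, Function.Injective ρ ∧
        (((univ : Finset (Finset (Fin n))).filter fun P => Bad ρ r H P).card : ℝ) ≤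
          δ * (n.choose (r + 1) : ℝ)) →
      (H.card : ℝ) ≤ (1 - (((r : ℝ) - 1) / ((m : ℝ) - 1)) ^ (r - 1) + ε) * (n.choose r : ℝ) := by
  obtain ⟨s, rfl⟩ : ∃ s, r = s + 1 := ⟨r - 1, by omega⟩
  have hs : 1 ≤ s := by omega
  obtain ⟨N0, hN0⟩ := asym hs hrm (half_pos hε)
  have er : (((s + 1 : ℕ) : ℝ) - 1) = (s : ℝ) := by push_cast; ring
  rw [er, Nat.add_sub_cancel]
  set α : ℝ := (s : ℝ) / ((m : ℝ) - 1) with hα
  have hm1 : (s : ℝ) + 1 < (m : ℝ) := by exact_mod_cast hrm
  have hα0 : 0 ≤ α := div_nonneg (Nat.cast_nonneg _) (by have : (0 : ℝ) ≤ s := Nat.cast_nonneg _; linarith)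
  have hα1 : α ≤ 1 := by
    rw [hα, div_le_one (by have : (0 : ℝ) ≤ s := Nat.cast_nonneg _; linarith)]
    linarith
  have hαs : α ^ s ≤ 1 := pow_le_one₀ hα0 hα1
  set M := N0 + s + 2 with hM
  have hc : (0 : ℝ) < (M.choose (s + 2) : ℝ) := by exact_mod_cast Nat.choose_pos (by omega)
  refine ⟨ε / 2 / (M.choose (s + 2) : ℝ), by positivity, M, fun n hn H hH hK hbad => ?_⟩
  obtain ⟨ρ, hρ, hbad⟩ := hbad
  have hcu : (univ : Finset (Fin n)).card = n := by rw [card_univ, Fintype.card_fin]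
  have hHsub : H ⊆ (univ : Finset (Fin n)).powersetCard (s + 1) := fun Z hZ =>
    mem_powersetCard.mpr ⟨subset_univ _, hH Z hZ⟩
  have hFc : (((univ : Finset (Fin n)).powersetCard (s + 1) \ H).card : ℝ) =
      (n.choose (s + 1) : ℝ) - (H.card : ℝ) := by
    rw [cast_card_sdiff hHsub, card_powersetCard, hcu]
  have hav := Pool.Agent.Helper408_EX.average (univ : Finset (Fin n)) M (s + 1) (s + 2) (by omega)
    (by omega) (by rw [hcu]; exact hn) ((univ : Finset (Fin n)).powersetCard (s + 1) \ H)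
    ((univ : Finset (Finset (Fin n))).filter fun P => Bad ρ (s + 1) H P)
    (fun T hT => mem_powersetCard.mp (Finset.mem_sdiff.mp hT).1)
    (fun T hT => ⟨subset_univ _, (mem_filter.1 hT).2.1⟩)
    (α ^ s - ε / 2) (by linarith) ?_
  · rw [hcu, hFc] at hav
    have hcn : (0 : ℝ) < (n.choose (s + 2) : ℝ) := by
      exact_mod_cast Nat.choose_pos (by omega)
    have h1 : (M.choose (s + 2) : ℝ) * ((((univ : Finset (Finset (Fin n))).filter fun P =>
        Bad ρ (s + 1) H P).card : ℝ) / (n.choose (s + 2) : ℝ)) ≤ ε / 2 := by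
      have h2 : (((univ : Finset (Finset (Fin n))).filter fun P =>
        Bad ρ (s + 1) H P).card : ℝ) / (n.choose (s + 2) : ℝ) ≤ ε / 2 / (M.choose (s + 2) : ℝ) := by
        rw [div_le_iff₀ hcn]
        exact hbad
      calc _ ≤ (M.choose (s + 2) : ℝ) * (ε / 2 / (M.choose (s + 2) : ℝ)) :=
            mul_le_mul_of_nonneg_left h2 hc.le
        _ = ε / 2 := by field_simp
    have h3 : (α ^ s - ε) * (n.choose (s + 1) : ℝ) ≤ (n.choose (s + 1) : ℝ) - (H.card : ℝ) :=
      le_trans (mul_le_mul_of_nonneg_right (by linarith) (Nat.cast_nonneg _)) hav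
    linarith
  · intro S hS hfree
    rw [mem_powersetCard] at hS
    have h1 := local_set (D := Dn m s M) hr hrm (by omega) (Dn_le hrm M) hρ hK hS.2
      (fun P hP hPb => hfree P (mem_filter.mpr ⟨mem_univ _, hPb⟩) hP)
    rw [Nat.add_sub_cancel] at h1
    have h2 := hN0 M (by omega)
    have h3 : ((M - Dn m s M : ℕ) : ℝ) * ((Dn m s M).choose s : ℝ) +
        ((Dn m s M).choose (s + 1) : ℝ) ≤
        ((((univ : Finset (Fin n)).powersetCard (s + 1) \ H).filter (· ⊆ S)).card : ℝ) +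
        ((m - (s + 1) : ℕ) : ℝ) * ((Dn m s M + 1).choose (s + 1) : ℝ) := by
      exact_mod_cast h1
    have h4 : (α ^ s - ε / 2) * (M.choose (s + 1) : ℝ) ≤
        ((((univ : Finset (Fin n)).powersetCard (s + 1) \ H).filter (· ⊆ S)).card : ℝ) := by
      linarith
    refine h4.trans (le_of_eq ?_)
    congr!

/-! The example. -/

/-- the `r`-sets inside an interval of `L` consecutive points -/
noncomputable def std (n r L : ℕ) : Finset (Finset (Fin n)) :=
  ((univ : Finset (Fin n)).powersetCard r).filter fun Z => ∃ i : ℕ, ∀ v ∈ Z, v.1 / L = i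

theorem std_card {n r q L : ℕ} (hr : 1 ≤ r) (hL : 1 ≤ L) (hq : n ≤ q * L) :
    (std n r L).card ≤ q * L.choose r := by
  have h1 : std n r L ⊆ (range q).biUnion fun i =>
      ((univ : Finset (Fin n)).filter fun v => v.1 / L = i).powersetCard r := by
    intro Z hZ
    unfold std at hZ
    rw [mem_filter, mem_powersetCard] at hZ
    obtain ⟨⟨_, hZ⟩, i, hi⟩ := hZ
    rw [mem_biUnion]
    obtain ⟨v, hv⟩ : Z.Nonempty := card_pos.1 (by omega)
    refine ⟨i, ?_, ?_⟩
    · rw [mem_range, ← hi v hv, Nat.div_lt_iff_lt_mul (by omega)]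
      have := v.2
      omega
    · rw [mem_powersetCard]
      exact ⟨fun w hw => mem_filter.2 ⟨mem_univ _, hi w hw⟩, hZ⟩
  have h2 : ∀ i, ((univ : Finset (Fin n)).filter fun v => v.1 / L = i).card ≤ L := by
    intro i
    have h3 : ((univ : Finset (Fin n)).filter fun v => v.1 / L = i).card ≤ (range L).card := by
      refine card_le_card_of_injOn (fun v => v.1 % L) ?_ ?_
      · intro v _
        exact mem_coe.2 (mem_range.2 (Nat.mod_lt _ (by omega)))
      · intro v hv w hw h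
        have a1 := (mem_filter.1 (mem_coe.1 hv)).2
        have a2 := (mem_filter.1 (mem_coe.1 hw)).2
        refine Fin.ext ?_
        rw [← Nat.div_add_mod v.1 L, ← Nat.div_add_mod w.1 L, a1, a2]
        have h' : v.1 % L = w.1 % L := h
        rw [h']
    rwa [card_range] at h3
  calc (std n r L).card ≤ _ := card_le_card h1
    _ ≤ _ := card_biUnion_le
    _ ≤ ∑ i ∈ range q, L.choose r := by
        refine sum_le_sum fun i _ => ?_
        rw [card_powersetCard]
        exact Nat.choose_le_choose r (h2 i)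
    _ = _ := by rw [sum_const, card_range, smul_eq_mul]

theorem std_kf {n r m q L : ℕ} (hL : 1 ≤ L) (hq : n ≤ q * L) (hm : q * (r - 1) < m) (hr : 1 ≤ r) :
    KF r m ((univ : Finset (Fin n)).powersetCard r \ std n r L) := by
  intro Y hY
  have h1 : ∀ v ∈ Y, v.1 / L ∈ range q := by
    intro v _
    rw [mem_range, Nat.div_lt_iff_lt_mul (by omega)]
    have := v.2
    omega
  obtain ⟨i, _, h2⟩ := exists_lt_card_fiber_of_mul_lt_card_of_maps_to h1
    (by rw [card_range, hY]; exact hm)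
  obtain ⟨Z, hZ, hZc⟩ := exists_subset_card_eq (s := Y.filter fun v => v.1 / L = i) (n := r)
    (by omega)
  refine ⟨Z, hZ.trans (filter_subset _ _), hZc, fun h => (Finset.mem_sdiff.mp h).2 ?_⟩
  unfold std
  rw [mem_filter, mem_powersetCard]
  exact ⟨⟨subset_univ _, hZc⟩, i, fun v hv => (mem_filter.1 (hZ hv)).2⟩

theorem std_bad {n r L : ℕ} (hr : 2 ≤ r) (P : Finset (Fin n)) :
    ¬ Bad (fun v => v.1) r ((univ : Finset (Fin n)).powersetCard r \ std n r L) P := by
  rintro ⟨hPc, a, ha, b, hb, z, hz, haz, hba, hbmin, hHz, hrest⟩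
  have hne : a.1 / L ≠ z.1 / L := by
    intro h
    refine (Finset.mem_sdiff.mp hHz).2 ?_
    unfold std
    rw [mem_filter]
    refine ⟨(Finset.mem_sdiff.mp hHz).1, a.1 / L, fun v hv => ?_⟩
    have h1 := haz v (mem_erase.mp hv).2
    have h2 : a.1 / L ≤ v.1 / L := Nat.div_le_div_right h1.1
    have h3 : v.1 / L ≤ z.1 / L := Nat.div_le_div_right h1.2
    omega
  have key : ∀ x ∈ P, x ≠ a → x ≠ z →
      P.erase x ∈ (univ : Finset (Fin n)).powersetCard r \ std n r L := by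
    intro x hx hxa hxz
    rw [Finset.mem_sdiff, mem_powersetCard]
    refine ⟨⟨subset_univ _, by rw [card_erase_of_mem hx]; omega⟩, fun h => ?_⟩
    unfold std at h
    obtain ⟨i, hi⟩ := (mem_filter.mp h).2
    exact hne ((hi a (mem_erase.mpr ⟨hxa.symm, ha⟩)).trans (hi z (mem_erase.mpr ⟨hxz.symm, hz⟩)).symm)
  rcases hrest with h | ⟨h1, x, hx, h2⟩
  · refine h (key b hb hba fun hbz => ?_)
    have : P ⊆ {a, z} := by
      intro x hx
      rw [mem_insert, mem_singleton]
      by_cases hxa : x = a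
      · exact Or.inl hxa
      · right
        have h3 := hbmin x hx hxa
        have h4 := (haz x hx).2
        simp only at h3 h4
        rw [hbz] at h3
        exact Fin.ext (le_antisymm h4 h3)
    have h5 := card_le_card this
    have h6 : ({a, z} : Finset (Fin n)).card ≤ 2 := card_le_two
    omega
  · by_cases hxa : x = a
    · rw [hxa] at h2; exact h2 h1
    · by_cases hxz : x = z
      · rw [hxz] at h2; exact h2 hHz
      · exact h2 (key x hx hxa hxz)

theorem size (r q : ℕ) (hq : 1 ≤ q) {ε : ℝ} (hε : 0 < ε) : ∃ n0 : ℕ, ∀ n, n0 ≤ n →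
    (q : ℝ) * (((n + q - 1) / q).choose (r + 1) : ℝ) ≤
      ((1 / (q : ℝ)) ^ r + ε) * (n.choose (r + 1) : ℝ) := by
  have hq0 : (0 : ℝ) < q := by exact_mod_cast hq
  have hL : Tendsto (fun n : ℕ => (((n + q - 1) / q : ℕ) : ℝ) / n) atTop (𝓝 (1 / (q : ℝ))) := by
    have h0 : Tendsto (fun N : ℕ => (1 : ℝ) / N) atTop (𝓝 0) := tendsto_const_div_atTop_nhds_zero_nat _
    have h1 : Tendsto (fun N : ℕ => 1 / (q : ℝ) + (1 : ℝ) / N) atTop (𝓝 (1 / (q : ℝ))) := by
      have := (tendsto_const_nhds (x := 1 / (q : ℝ))).add h0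
      rwa [add_zero] at this
    refine tendsto_of_tendsto_of_tendsto_of_le_of_le' tendsto_const_nhds h1 ?_ ?_
    · filter_upwards [eventually_gt_atTop 0] with n hn
      have hn' : (0 : ℝ) < n := by exact_mod_cast hn
      have h2 : n ≤ q * ((n + q - 1) / q) := by
        have h3 := Nat.div_add_mod (n + q - 1) q
        have h4 := Nat.mod_lt (n + q - 1) (show 0 < q by omega)
        omega
      have h5 : (n : ℝ) ≤ (q : ℝ) * (((n + q - 1) / q : ℕ) : ℝ) := by exact_mod_cast h2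
      rw [div_le_div_iff₀ hq0 hn']
      linarith
    · filter_upwards [eventually_gt_atTop 0] with n hn
      have hn' : (0 : ℝ) < n := by exact_mod_cast hn
      have h2 : q * ((n + q - 1) / q) ≤ n + q := by
        have := Nat.mul_div_le (n + q - 1) q
        omega
      have h5 : (q : ℝ) * (((n + q - 1) / q : ℕ) : ℝ) ≤ (n : ℝ) + q := by exact_mod_cast h2
      rw [div_add_div _ _ hq0.ne' hn'.ne', div_le_div_iff₀ hn' (by positivity)]
      nlinarith
  have t1 := (tendsto_choose hL (r + 1)).const_mul (q : ℝ)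
  have t2 := (tendsto_choose (D := fun N => N) self_tendsto (r + 1)).const_mul ((1 / (q : ℝ)) ^ r + ε)
  have t3 := t2.sub t1
  have hf : (0 : ℝ) < ((r + 1).factorial : ℝ) := by exact_mod_cast Nat.factorial_pos _
  have hlim : ((1 / (q : ℝ)) ^ r + ε) * ((1 : ℝ) ^ (r + 1) / ((r + 1).factorial : ℝ)) -
      (q : ℝ) * ((1 / (q : ℝ)) ^ (r + 1) / ((r + 1).factorial : ℝ)) = ε / ((r + 1).factorial : ℝ) := by
    rw [pow_succ (1 / (q : ℝ)) r, one_pow]
    generalize (1 / (q : ℝ)) ^ r = A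
    field_simp
    ring
  rw [hlim] at t3
  have hpos : (0 : ℝ) < ε / ((r + 1).factorial : ℝ) := by positivity
  obtain ⟨n0, hn0⟩ := eventually_atTop.mp ((t3.eventually (lt_mem_nhds hpos)).and (eventually_gt_atTop 0))
  refine ⟨n0, fun n hn => ?_⟩
  obtain ⟨h1, h2⟩ := hn0 n hn
  have hn' : (0 : ℝ) < n := by exact_mod_cast h2
  have hNp : (0 : ℝ) < (n : ℝ) ^ (r + 1) := by positivity
  have h3 := mul_pos h1 hNp
  have h4 : (((1 / (q : ℝ)) ^ r + ε) * ((n.choose (r + 1) : ℝ) / (n : ℝ) ^ (r + 1)) -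
      (q : ℝ) * ((((n + q - 1) / q).choose (r + 1) : ℝ) / (n : ℝ) ^ (r + 1))) * (n : ℝ) ^ (r + 1) =
      ((1 / (q : ℝ)) ^ r + ε) * (n.choose (r + 1) : ℝ) -
        (q : ℝ) * (((n + q - 1) / q).choose (r + 1) : ℝ) := by
    rw [sub_mul, mul_assoc, mul_assoc, div_mul_cancel₀ _ hNp.ne', div_mul_cancel₀ _ hNp.ne']
  rw [h4] at h3
  linarith

/-- the lower bound -/
theorem lower {r q : ℕ} (hr : 2 ≤ r) (hq : 1 ≤ q) {ε : ℝ} (hε : 0 < ε) : ∃ n0 : ℕ, ∀ n, n0 ≤ n →
    ∃ H : Finset (Finset (Fin n)), (∀ Z ∈ H, Z.card = r) ∧ KF r (q * (r - 1) + 1) H ∧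
      (∀ P, ¬ Bad (fun v => v.1) r H P) ∧
      (1 - (1 / (q : ℝ)) ^ (r - 1) - ε) * (n.choose r : ℝ) ≤ (H.card : ℝ) := by
  obtain ⟨s, rfl⟩ : ∃ s, r = s + 1 := ⟨r - 1, by omega⟩
  obtain ⟨n0, h⟩ := size s q hq hε
  refine ⟨n0 + 1, fun n hn => ?_⟩
  set L := (n + q - 1) / q with hL
  have hqL : n ≤ q * L := by
    have h1 := Nat.div_add_mod (n + q - 1) q
    have h2 := Nat.mod_lt (n + q - 1) (show 0 < q by omega)
    rw [← hL] at h1
    omega
  have hL1 : 1 ≤ L := by
    rcases Nat.eq_zero_or_pos L with h0 | h0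
    · rw [h0] at hqL
      omega
    · exact h0
  refine ⟨(univ : Finset (Fin n)).powersetCard (s + 1) \ std n (s + 1) L,
    fun Z hZ => (mem_powersetCard.mp (Finset.mem_sdiff.mp hZ).1).2,
    std_kf hL1 hqL (by omega) (by omega), std_bad hr, ?_⟩
  have hsub : std n (s + 1) L ⊆ (univ : Finset (Fin n)).powersetCard (s + 1) := filter_subset _ _
  have h1 : (((univ : Finset (Fin n)).powersetCard (s + 1) \ std n (s + 1) L).card : ℝ) =
      (n.choose (s + 1) : ℝ) - ((std n (s + 1) L).card : ℝ) := by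
    rw [cast_card_sdiff hsub, card_powersetCard, card_univ, Fintype.card_fin]
  have h2 : ((std n (s + 1) L).card : ℝ) ≤ (q : ℝ) * (L.choose (s + 1) : ℝ) := by
    exact_mod_cast std_card (by omega) hL1 hqL
  have h3 := h n (by omega)
  rw [h1, Nat.add_sub_cancel]
  linarith

end Pool.Agent.Helper964_DD.RG
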