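import Pool.Agent.Helper964_DD.RG.Main

/-! Independent sets of the shift graph on the `r`-subsets of `{0, ..., n-1}`. -/

set_option autoImplicit false
open Finset
open scoped Classical

namespace Pool.Agent.Helper964_DD.RG

noncomputable def Low (n r : ℕ) : Finset (Finset ℕ) :=
  ((range n).powersetCard r).filter fun W => mn W + mx W < n - 1

noncomputable def High (n r : ℕ) : Finset (Finset ℕ) :=
  ((range n).powersetCard r).filter fun W => n - 1 < mn W + mx W

noncomputable def Mid (n r : ℕ) : Finset (Finset ℕ) :=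
  ((range n).powersetCard r).filter fun W => mn W + mx W = n - 1

theorem split_card (n r : ℕ) (p : Finset ℕ → Prop) :
    (((range n).powersetCard r).filter p).card =
      ((Low n r).filter p).card + ((High n r).filter p).card + ((Mid n r).filter p).card := by
  unfold Low High Mid
  simp only [card_filter, sum_filter, ← sum_add_distrib]
  refine sum_congr rfl fun W _ => ?_
  split_ifs <;> omega

theorem refl_facts {n r : ℕ} (hr : 1 ≤ r) {W : Finset ℕ} (hW : W ∈ (range n).powersetCard r) :
    (W.image fun i => n - 1 - i) ∈ (range n).powersetCard r ∧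
      mn (W.image fun i => n - 1 - i) = n - 1 - mx W ∧
      mx (W.image fun i => n - 1 - i) = n - 1 - mn W ∧
      (W.image fun i => n - 1 - i).image (fun i => n - 1 - i) = W := by
  obtain ⟨h1, h2⟩ := mem_powersetCard.mp hW
  have hlt : ∀ i ∈ W, i < n := fun i hi => mem_range.mp (h1 hi)
  have hne : W.Nonempty := card_pos.mp (by omega)
  have hinj : Set.InjOn (fun i => n - 1 - i) (W : Set ℕ) := by
    intro i hi j hj h
    have := hlt i (mem_coe.mp hi)
    have := hlt j (mem_coe.mp hj)
    simp only at h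
    omega
  refine ⟨mem_powersetCard.mpr ⟨?_, by rw [card_image_of_injOn hinj, h2]⟩, ?_, ?_, ?_⟩
  · intro x hx
    obtain ⟨i, hi, rfl⟩ := mem_image.mp hx
    have := hlt i hi
    exact mem_range.mpr (by omega)
  · refine mn_eq (mem_image.mpr ⟨mx W, mx_mem hne, rfl⟩) ?_
    intro x hx
    obtain ⟨i, hi, rfl⟩ := mem_image.mp hx
    have := le_mx hi
    omega
  · refine mx_eq (mem_image.mpr ⟨mn W, mn_mem hne, rfl⟩) ?_
    intro x hx
    obtain ⟨i, hi, rfl⟩ := mem_image.mp hx
    have := mn_le hi
    omega
  · ext x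
    simp only [mem_image]
    constructor
    · rintro ⟨_, ⟨i, hi, rfl⟩, rfl⟩
      have := hlt i hi
      have e : n - 1 - (n - 1 - i) = i := by omega
      rw [e]; exact hi
    · intro hx
      have := hlt x hx
      exact ⟨n - 1 - x, ⟨x, hx, rfl⟩, by omega⟩

theorem low_high (n : ℕ) {r : ℕ} (hr : 1 ≤ r) : (Low n r).card = (High n r).card := by
  refine card_nbij' (fun W => W.image fun i => n - 1 - i) (fun W => W.image fun i => n - 1 - i)
    ?_ ?_ ?_ ?_
  · intro W hW
    have hW' := mem_filter.mp (mem_coe.mp hW)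
    obtain ⟨h1, h2, h3, _⟩ := refl_facts hr hW'.1
    have h4 := mem_powersetCard.mp hW'.1
    have hne : W.Nonempty := card_pos.mp (by omega)
    have h5 := mem_range.mp (h4.1 (mx_mem hne))
    have h6 := mn_le (mx_mem hne)
    refine mem_coe.mpr (mem_filter.mpr ⟨h1, ?_⟩)
    rw [h2, h3]
    have := hW'.2
    omega
  · intro W hW
    have hW' := mem_filter.mp (mem_coe.mp hW)
    obtain ⟨h1, h2, h3, _⟩ := refl_facts hr hW'.1
    have h4 := mem_powersetCard.mp hW'.1
    have hne : W.Nonempty := card_pos.mp (by omega)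
    have h5 := mem_range.mp (h4.1 (mx_mem hne))
    have h6 := mn_le (mx_mem hne)
    refine mem_coe.mpr (mem_filter.mpr ⟨h1, ?_⟩)
    rw [h2, h3]
    have := hW'.2
    omega
  · intro W hW
    exact (refl_facts hr (mem_filter.mp (mem_coe.mp hW)).1).2.2.2
  · intro W hW
    exact (refl_facts hr (mem_filter.mp (mem_coe.mp hW)).1).2.2.2

theorem total (n : ℕ) {r : ℕ} (hr : 1 ≤ r) : n.choose r = 2 * (High n r).card + (Mid n r).card := by
  have h := split_card n r (fun _ => True)
  simp only [filter_true] at h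
  rw [card_powersetCard, card_range, low_high n hr] at h
  omega

/-- replace the first point by its mirror image -/
noncomputable def Phi (n : ℕ) (W : Finset ℕ) : Finset ℕ := insert (n - 1 - mn W) (W.erase (mn W))

theorem phi_facts {n r : ℕ} (hr : 2 ≤ r) {W : Finset ℕ} (hW : W ∈ Low n r) :
    (∀ x ∈ W.erase (mn W), mn W < x ∧ x < n - 1 - mn W) ∧ (W.erase (mn W)).Nonempty ∧
      mn W < n - 1 - mn W ∧ n - 1 - mn W ∉ W ∧
      Phi n W ∈ (range n).powersetCard r ∧ mx (Phi n W) = n - 1 - mn W ∧
      mn (Phi n W) = mn (W.erase (mn W)) ∧ (Phi n W).erase (n - 1 - mn W) = W.erase (mn W) ∧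
      Phi n W ∈ High n r := by
  obtain ⟨h1, h2⟩ := mem_filter.mp hW
  obtain ⟨h3, h4⟩ := mem_powersetCard.mp h1
  have hne : W.Nonempty := card_pos.mp (by omega)
  have ha := mn_mem hne
  have hz := mx_mem hne
  have hb : ∀ x ∈ W.erase (mn W), mn W < x ∧ x < n - 1 - mn W := by
    intro x hx
    obtain ⟨hx1, hx2⟩ := mem_erase.mp hx
    have := mn_le hx2
    have := le_mx hx2
    omega
  have hne2 : (W.erase (mn W)).Nonempty := card_pos.mp (by rw [card_erase_of_mem ha]; omega)
  have hlt : mn W < n - 1 - mn W := by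
    obtain ⟨x, hx⟩ := hne2
    have := hb x hx
    omega
  have hnot : n - 1 - mn W ∉ W := by
    intro h
    have := le_mx h
    omega
  have hnot2 : n - 1 - mn W ∉ W.erase (mn W) := fun h => hnot (mem_erase.mp h).2
  have hps : Phi n W ∈ (range n).powersetCard r := by
    unfold Phi
    refine mem_powersetCard.mpr ⟨?_, ?_⟩
    · intro x hx
      rcases mem_insert.mp hx with rfl | hx
      · exact mem_range.mpr (by omega)
      · exact h3 (mem_erase.mp hx).2
    · rw [card_insert_of_notMem hnot2, card_erase_of_mem ha]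
      omega
  have hmx : mx (Phi n W) = n - 1 - mn W := by
    unfold Phi
    refine mx_eq (mem_insert_self _ _) ?_
    intro x hx
    rcases mem_insert.mp hx with rfl | hx
    · exact le_refl _
    · exact (hb x hx).2.le
  have hmn : mn (Phi n W) = mn (W.erase (mn W)) := by
    unfold Phi
    refine mn_eq (mem_insert_of_mem (mn_mem hne2)) ?_
    intro x hx
    rcases mem_insert.mp hx with rfl | hx
    · exact (hb _ (mn_mem hne2)).2.le
    · exact mn_le hx
  refine ⟨hb, hne2, hlt, hnot, hps, hmx, hmn, ?_, ?_⟩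
  · unfold Phi
    exact erase_insert hnot2
  · refine mem_filter.mpr ⟨hps, ?_⟩
    rw [hmx, hmn]
    have := (hb _ (mn_mem hne2)).1
    omega

theorem phi_inj {n r : ℕ} (hr : 2 ≤ r) : Set.InjOn (Phi n) (Low n r : Set (Finset ℕ)) := by
  intro W hW W' hW' h
  obtain ⟨_, _, hlt, _, _, hmx, _, her, _⟩ := phi_facts hr (mem_coe.mp hW)
  obtain ⟨_, _, hlt', _, _, hmx', _, her', _⟩ := phi_facts hr (mem_coe.mp hW')
  have h0 := (mem_powersetCard.mp (mem_filter.mp (mem_coe.mp hW)).1).2
  have h0' := (mem_powersetCard.mp (mem_filter.mp (mem_coe.mp hW')).1).2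
  have ha := mn_mem (Z := W) (card_pos.mp (by omega))
  have ha' := mn_mem (Z := W') (card_pos.mp (by omega))
  rw [h, hmx'] at hmx
  have e : mn W = mn W' := by omega
  rw [h] at her
  calc W = insert (mn W) (W.erase (mn W)) := (insert_erase ha).symm
    _ = insert (mn W') (W'.erase (mn W')) := by rw [← her, ← her', e]
    _ = W' := insert_erase ha'

/-- at most half of the sets, up to `Mid` -/
theorem shift_upper {n r : ℕ} (hr : 2 ≤ r) {H : Finset ℕ → Prop}
    (hH : ∀ P ⊆ range n, P.card = r + 1 → ∀ a ∈ P, ∀ z ∈ P, (∀ x ∈ P, a ≤ x ∧ x ≤ z) →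
      ¬ (H (P.erase z) ∧ H (P.erase a))) :
    2 * (((range n).powersetCard r).filter H).card ≤ n.choose r + (Mid n r).card := by
  have h1 : ((Low n r).filter H).card ≤ ((High n r).filter fun W => ¬ H W).card := by
    refine card_le_card_of_injOn (Phi n) ?_ ?_
    · intro W hW
      obtain ⟨hL, hHW⟩ := mem_filter.mp (mem_coe.mp hW)
      obtain ⟨hb, hne2, hlt, hnot, hps, hmx, hmn, her, hHi⟩ := phi_facts hr hL
      refine mem_coe.mpr (mem_filter.mpr ⟨hHi, fun hc => ?_⟩)
      obtain ⟨h3, h4⟩ := mem_powersetCard.mp (mem_filter.mp hL).1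
      have ha := mn_mem (Z := W) (card_pos.mp (by omega))
      have e1 : (insert (n - 1 - mn W) W).erase (n - 1 - mn W) = W := erase_insert hnot
      have e2 : (insert (n - 1 - mn W) W).erase (mn W) = Phi n W := by
        unfold Phi
        rw [erase_insert_of_ne (by omega)]
      refine hH (insert (n - 1 - mn W) W) ?_ ?_ (mn W) (mem_insert_of_mem ha) (n - 1 - mn W)
        (mem_insert_self _ _) ?_ ⟨by rw [e1]; exact hHW, by rw [e2]; exact hc⟩
      · intro x hx
        rcases mem_insert.mp hx with rfl | hx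
        · exact mem_range.mpr (by omega)
        · exact h3 hx
      · rw [card_insert_of_notMem hnot, h4]
      · intro x hx
        rcases mem_insert.mp hx with rfl | hx
        · exact ⟨hlt.le, le_refl _⟩
        · by_cases hxa : x = mn W
          · rw [hxa]; exact ⟨le_refl _, hlt.le⟩
          · have := hb x (mem_erase.mpr ⟨hxa, hx⟩)
            exact ⟨this.1.le, this.2.le⟩
    · exact (phi_inj hr).mono (fun W hW => mem_coe.mpr (mem_filter.mp (mem_coe.mp hW)).1)
  have h2 : ((High n r).filter H).card + ((High n r).filter fun W => ¬ H W).card =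
      (High n r).card := by
    rw [← card_filter_add_card_filter_not (s := High n r) (p := H)]
  have h3 : ((Mid n r).filter H).card ≤ (Mid n r).card := card_filter_le _ _
  have h4 := split_card n r H
  have h5 := total n (r := r) (by omega)
  omega

/-- the example -/
def Vp (n : ℕ) (W : Finset ℕ) : Prop :=
  mn (W.erase (mx W)) + mx (W.erase (mx W)) < n - 1 ∧
    n - 1 ≤ mn (W.erase (mn W)) + mx (W.erase (mn W))

theorem vp_indep {n : ℕ} {P : Finset ℕ} (hP : 3 ≤ P.card) {a z : ℕ} (ha : a ∈ P) (hz : z ∈ P)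
    (haz : ∀ x ∈ P, a ≤ x ∧ x ≤ z) : ¬ (Vp n (P.erase z) ∧ Vp n (P.erase a)) := by
  rintro ⟨⟨_, h1⟩, h2, _⟩
  have hne : a ≠ z := by
    intro h
    have : P ⊆ {a} := by
      intro x hx
      have := haz x hx
      rw [mem_singleton]
      omega
    have := card_le_card this
    rw [card_singleton] at this
    omega
  have e1 : mn (P.erase z) = a := mn_eq (mem_erase.mpr ⟨hne, ha⟩)
    (fun x hx => (haz x (mem_erase.mp hx).2).1)
  have e2 : mx (P.erase a) = z := mx_eq (mem_erase.mpr ⟨hne.symm, hz⟩)
    (fun x hx => (haz x (mem_erase.mp hx).2).2)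
  rw [e1] at h1
  rw [e2, erase_right_comm] at h2
  omega

theorem shift_lower (n : ℕ) {r : ℕ} (hr : 2 ≤ r) :
    n.choose r + (Mid n r).card ≤ 2 * (((range n).powersetCard r).filter (Vp n)).card := by
  have h1 : ((Low n r).filter fun W => ¬ Vp n W).card ≤ ((High n r).filter (Vp n)).card := by
    refine card_le_card_of_injOn (Phi n) ?_ ?_
    · intro W hW
      obtain ⟨hL, hV⟩ := mem_filter.mp (mem_coe.mp hW)
      obtain ⟨hb, hne2, hlt, hnot, hps, hmx, hmn, her, hHi⟩ := phi_facts hr hL
      refine mem_coe.mpr (mem_filter.mpr ⟨hHi, ?_⟩)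
      obtain ⟨h2, h3⟩ := mem_filter.mp hL
      obtain ⟨h4, h5⟩ := mem_powersetCard.mp h2
      have hne : W.Nonempty := card_pos.mp (by omega)
      have ha := mn_mem hne
      have hz := mx_mem hne
      have hza : mn W ≠ mx W := by
        obtain ⟨x, hx⟩ := hne2
        have h6 := hb x hx
        have h7 := le_mx (mem_erase.mp hx).2
        omega
      have c1 : mn (W.erase (mx W)) = mn W := mn_eq (mem_erase.mpr ⟨hza, ha⟩)
        (fun x hx => mn_le (mem_erase.mp hx).2)
      have c2 : mx (W.erase (mx W)) ≤ mx W :=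
        le_mx (mem_erase.mp (mx_mem ⟨mn W, mem_erase.mpr ⟨hza, ha⟩⟩)).2
      have c3 : mn (W.erase (mn W)) + mx (W.erase (mn W)) < n - 1 := by
        by_contra hc
        exact hV ⟨by rw [c1]; omega, by omega⟩
      refine ⟨?_, ?_⟩
      · rw [hmx, her]; exact c3
      · have hmem : n - 1 - mn W ∈ (Phi n W).erase (mn (Phi n W)) := by
          refine mem_erase.mpr ⟨?_, ?_⟩
          · rw [hmn]
            have := (hb _ (mn_mem hne2)).2
            omega
          · unfold Phi; exact mem_insert_self _ _
        have c4 := le_mx hmem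
        have c5 : mn W < mn ((Phi n W).erase (mn (Phi n W))) := by
          have h8 := (mem_erase.mp (mn_mem ⟨_, hmem⟩)).2
          have h9 : mn ((Phi n W).erase (mn (Phi n W))) ∈ insert (n - 1 - mn W) (W.erase (mn W)) := h8
          rcases mem_insert.mp h9 with h | h
          · omega
          · exact (hb _ h).1
        omega
    · exact (phi_inj hr).mono (fun W hW => mem_coe.mpr (mem_filter.mp (mem_coe.mp hW)).1)
  have h2 : ((Low n r).filter (Vp n)).card + ((Low n r).filter fun W => ¬ Vp n W).card =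
      (Low n r).card := by
    rw [← card_filter_add_card_filter_not (s := Low n r) (p := Vp n)]
  have h3 : (Mid n r).card ≤ ((Mid n r).filter (Vp n)).card := by
    refine card_le_card ?_
    intro W hW
    refine mem_filter.mpr ⟨hW, ?_⟩
    obtain ⟨h4, h5⟩ := mem_filter.mp hW
    obtain ⟨h6, h7⟩ := mem_powersetCard.mp h4
    have hne : W.Nonempty := card_pos.mp (by omega)
    have ha := mn_mem hne
    have hz := mx_mem hne
    have hza : mn W ≠ mx W := by
      intro h
      have : W ⊆ {mn W} := by
        intro x hx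
        have := mn_le hx
        have := le_mx hx
        rw [mem_singleton]
        omega
      have := card_le_card this
      rw [card_singleton] at this
      omega
    have a1 : mn W ∈ W.erase (mx W) := mem_erase.mpr ⟨hza, ha⟩
    have a2 : mx W ∈ W.erase (mn W) := mem_erase.mpr ⟨hza.symm, hz⟩
    have c1 : mn (W.erase (mx W)) = mn W := mn_eq a1 (fun x hx => mn_le (mem_erase.mp hx).2)
    have c2 : mx (W.erase (mn W)) = mx W := mx_eq a2 (fun x hx => le_mx (mem_erase.mp hx).2)
    have c3 := mem_erase.mp (mx_mem ⟨_, a1⟩)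
    have c4 := mem_erase.mp (mn_mem ⟨_, a2⟩)
    have c5 := le_mx c3.2
    have c6 := mn_le c4.2
    have c7 := c3.1
    have c8 := c4.1
    refine ⟨by rw [c1]; omega, by rw [c2]; omega⟩
  have h4 := split_card n r (Vp n)
  have h5 := total n (r := r) (by omega)
  have h6 := low_high n (r := r) (by omega)
  omega

end Pool.Agent.Helper964_DD.RG
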