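import Pool.Agent.Helper964_DD.RG.ShiftFin

/-! A small proportion of exceptional sets. -/

set_option autoImplicit false
open Finset
open scoped Classical

namespace Pool.Agent.Helper964_DD.RG

variable {n : ℕ}

/-- the first `r` and the last `r` points are edges -/
def Both (ρ : Fin n → ℕ) (r : ℕ) (H : Finset (Finset (Fin n))) (P : Finset (Fin n)) : Prop :=
  P.card = r + 1 ∧ ∃ a ∈ P, ∃ z ∈ P, (∀ x ∈ P, ρ a ≤ ρ x ∧ ρ x ≤ ρ z) ∧ P.erase z ∈ H ∧
    P.erase a ∈ H

theorem small_mid {r : ℕ} (hr : 2 ≤ r) {ε : ℝ} (hε : 0 < ε) : ∃ N0 : ℕ, ∀ N, N0 ≤ N →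
    ((Mid N r).card : ℝ) ≤ ε * (N.choose r : ℝ) := by
  refine ⟨r + Nat.ceil ((r : ℝ) / ε), fun N hN => ?_⟩
  have h1 : ((Mid N r).card : ℝ) ≤ (N.choose (r - 1) : ℝ) := by exact_mod_cast mid_le N hr
  refine h1.trans ?_
  obtain ⟨s, rfl⟩ : ∃ s, r = s + 1 := ⟨r - 1, by omega⟩
  rw [Nat.add_sub_cancel]
  have h2 := Nat.choose_succ_right_eq N s
  have h3 : (N.choose (s + 1) : ℝ) * ((s : ℝ) + 1) = (N.choose s : ℝ) * ((N : ℝ) - s) := by
    have h4 : ((N.choose (s + 1) * (s + 1) : ℕ) : ℝ) = ((N.choose s * (N - s) : ℕ) : ℝ) := by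
      rw [h2]
    push_cast at h4
    rw [Nat.cast_sub (by omega)] at h4
    exact h4
  have h5 : ((s : ℝ) + 1) / ε ≤ (N : ℝ) - s := by
    have h6 := Nat.le_ceil (((s + 1 : ℕ) : ℝ) / ε)
    have h7 : ((s + 1 + Nat.ceil (((s + 1 : ℕ) : ℝ) / ε) : ℕ) : ℝ) ≤ (N : ℝ) := by exact_mod_cast hN
    push_cast at h6 h7
    linarith
  have h8 : (s : ℝ) + 1 ≤ ε * ((N : ℝ) - s) := by
    rw [div_le_iff₀ hε] at h5
    linarith
  have hs : (0 : ℝ) < (s : ℝ) + 1 := by positivity
  have hc : (0 : ℝ) ≤ (N.choose s : ℝ) := Nat.cast_nonneg _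
  have h9 : (N.choose s : ℝ) * ((s : ℝ) + 1) ≤ ε * (N.choose (s + 1) : ℝ) * ((s : ℝ) + 1) := by
    calc (N.choose s : ℝ) * ((s : ℝ) + 1) ≤ (N.choose s : ℝ) * (ε * ((N : ℝ) - s)) :=
          mul_le_mul_of_nonneg_left h8 hc
      _ = ε * ((N.choose s : ℝ) * ((N : ℝ) - s)) := by ring
      _ = ε * (N.choose (s + 1) : ℝ) * ((s : ℝ) + 1) := by rw [← h3]; ring
  exact le_of_mul_le_mul_right h9 hs

theorem trans_robust {r : ℕ} (hr : 2 ≤ r) {ε : ℝ} (hε : 0 < ε) :
    ∃ δ : ℝ, 0 < δ ∧ ∃ n0 : ℕ, ∀ n : ℕ, n0 ≤ n → ∀ H : Finset (Finset (Fin n)),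
      (∀ Z ∈ H, Z.card = r) →
      (∃ ρ : Fin n → ℕ, Function.Injective ρ ∧
        (((univ : Finset (Finset (Fin n))).filter fun P => Both ρ r H P).card : ℝ) ≤
          δ * (n.choose (r + 1) : ℝ)) →
      (H.card : ℝ) ≤ (1 / 2 + ε) * (n.choose r : ℝ) := by
  obtain ⟨N0, hN0⟩ := small_mid hr hε
  set M := N0 + r + 1 with hM
  have hc : (0 : ℝ) < (M.choose (r + 1) : ℝ) := by exact_mod_cast Nat.choose_pos (by omega)
  refine ⟨ε / 2 / (M.choose (r + 1) : ℝ), by positivity, M, fun n hn H hH hbad => ?_⟩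
  obtain ⟨ρ, hρ, hbad⟩ := hbad
  have hcu : (univ : Finset (Fin n)).card = n := by rw [card_univ, Fintype.card_fin]
  have hHsub : H ⊆ (univ : Finset (Fin n)).powersetCard r := fun Z hZ =>
    mem_powersetCard.mpr ⟨subset_univ _, hH Z hZ⟩
  have hFc : (((univ : Finset (Fin n)).powersetCard r \ H).card : ℝ) =
      (n.choose r : ℝ) - (H.card : ℝ) := by
    rw [cast_card_sdiff hHsub, card_powersetCard, hcu]
  have hav := Pool.Agent.Helper408_EX.average (univ : Finset (Fin n)) M r (r + 1) (by omega)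
    (by omega) (by rw [hcu]; exact hn) ((univ : Finset (Fin n)).powersetCard r \ H)
    ((univ : Finset (Finset (Fin n))).filter fun P => Both ρ r H P)
    (fun T hT => mem_powersetCard.mp (Finset.mem_sdiff.mp hT).1)
    (fun T hT => ⟨subset_univ _, (mem_filter.1 hT).2.1⟩)
    (1 / 2 - ε / 2) (by linarith) ?_
  · rw [hcu, hFc] at hav
    have hcn : (0 : ℝ) < (n.choose (r + 1) : ℝ) := by
      exact_mod_cast Nat.choose_pos (by omega)
    have h1 : (M.choose (r + 1) : ℝ) * ((((univ : Finset (Finset (Fin n))).filter fun P =>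
        Both ρ r H P).card : ℝ) / (n.choose (r + 1) : ℝ)) ≤ ε / 2 := by
      have h2 : (((univ : Finset (Finset (Fin n))).filter fun P =>
        Both ρ r H P).card : ℝ) / (n.choose (r + 1) : ℝ) ≤ ε / 2 / (M.choose (r + 1) : ℝ) := by
        rw [div_le_iff₀ hcn]
        exact hbad
      calc _ ≤ (M.choose (r + 1) : ℝ) * (ε / 2 / (M.choose (r + 1) : ℝ)) :=
            mul_le_mul_of_nonneg_left h2 hc.le
        _ = ε / 2 := by field_simp
    have h3 : (1 / 2 - ε) * (n.choose r : ℝ) ≤ (n.choose r : ℝ) - (H.card : ℝ) :=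
      le_trans (mul_le_mul_of_nonneg_right (by linarith) (Nat.cast_nonneg _)) hav
    linarith
  · intro S hS hfree
    rw [mem_powersetCard] at hS
    have h1 := trans_upper_on hr hρ hH hS.2 (fun P hP hPc a ha z hz haz hPH =>
      hfree P (mem_filter.mpr ⟨mem_univ _, hPc, a, ha, z, hz, haz, hPH.1, hPH.2⟩) hP)
    have h2 := hN0 M (by omega)
    have h4 : ((((univ : Finset (Fin n)).powersetCard r \ H).filter (· ⊆ S)).card : ℝ) +
        ((H.filter (· ⊆ S)).card : ℝ) = (M.choose r : ℝ) := by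
      have h5 : (((univ : Finset (Fin n)).powersetCard r \ H).filter (· ⊆ S)).card +
          (H.filter (· ⊆ S)).card = M.choose r := by
        rw [← hS.2, ← card_powersetCard, ← card_union_of_disjoint]
        · congr 1
          ext Z
          simp only [mem_union, mem_filter, Finset.mem_sdiff, mem_powersetCard]
          constructor
          · rintro (⟨⟨⟨_, h⟩, _⟩, h'⟩ | ⟨h, h'⟩)
            · exact ⟨h', h⟩
            · exact ⟨h', hH Z h⟩
          · rintro ⟨h, h'⟩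
            by_cases hZ : Z ∈ H
            · exact Or.inr ⟨hZ, h⟩
            · exact Or.inl ⟨⟨⟨subset_univ _, h'⟩, hZ⟩, h⟩
        · rw [Finset.disjoint_left]
          intro Z h1 h2
          exact (Finset.mem_sdiff.mp (mem_filter.mp h1).1).2 (mem_filter.mp h2).1
      exact_mod_cast h5
    have h6 : 2 * ((H.filter (· ⊆ S)).card : ℝ) ≤ (M.choose r : ℝ) + ((Mid M r).card : ℝ) := by
      exact_mod_cast h1
    have h7 : (1 / 2 - ε / 2) * (M.choose r : ℝ) ≤
        ((((univ : Finset (Fin n)).powersetCard r \ H).filter (· ⊆ S)).card : ℝ) := by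
      linarith
    refine h7.trans (le_of_eq ?_)
    congr!

end Pool.Agent.Helper964_DD.RG
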