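import Pool.Agent.Helper964_DD.RG.Shift

/-! Transfer to arbitrary orderings of `Fin n`. -/

set_option autoImplicit false
open Finset
open scoped Classical

namespace Pool.Agent.Helper964_DD.RG

theorem mid_card (n : ℕ) {r : ℕ} (hr : 2 ≤ r) :
    (Mid n r).card = ∑ j ∈ range (n / 2), (n - 2 - 2 * j).choose (r - 2) := by
  have hfact : ∀ W ∈ Mid n r, W ⊆ range n ∧ W.card = r ∧ mn W + mx W = n - 1 ∧ mn W ∈ W ∧
      mx W ∈ W ∧ mn W < mx W ∧ mx W < n := by
    intro W hW
    obtain ⟨h4, h5⟩ := mem_filter.mp hW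
    obtain ⟨h6, h7⟩ := mem_powersetCard.mp h4
    have hne : W.Nonempty := card_pos.mp (by omega)
    have ha := mn_mem hne
    have hz := mx_mem hne
    refine ⟨h6, h7, h5, ha, hz, ?_, mem_range.mp (h6 hz)⟩
    by_contra hc
    have : W ⊆ {mn W} := by
      intro x hx
      have := mn_le hx
      have := le_mx hx
      rw [mem_singleton]
      omega
    have := card_le_card this
    rw [card_singleton] at this
    omega
  rw [card_eq_sum_card_fiberwise (f := mn) (t := range (n / 2))]
  · refine sum_congr rfl fun a ha => ?_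
    have ha' := mem_range.mp ha
    have e : (n - 2 - 2 * a).choose (r - 2) = ((Ioo a (n - 1 - a)).powersetCard (r - 2)).card := by
      rw [card_powersetCard, Nat.card_Ioo]
      congr 1
      omega
    rw [e]
    have haz : a < n - 1 - a := by omega
    generalize hz : n - 1 - a = z at haz
    refine card_nbij' (fun W => (W.erase a).erase z) (fun Z => insert a (insert z Z)) ?_ ?_ ?_ ?_
    · intro W hW
      obtain ⟨hW1, hW2⟩ := mem_filter.mp (mem_coe.mp hW)
      obtain ⟨h1, h2, h3, h4, h5, h6, h7⟩ := hfact W hW1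
      have hz' : mx W = z := by omega
      rw [hW2] at h4
      rw [hz'] at h5
      refine mem_coe.mpr (mem_powersetCard.mpr ⟨?_, ?_⟩)
      · intro x hx
        obtain ⟨hx1, hx2⟩ := mem_erase.mp hx
        obtain ⟨hx3, hx4⟩ := mem_erase.mp hx2
        have := mn_le hx4
        have := le_mx hx4
        rw [mem_Ioo]
        omega
      · rw [card_erase_of_mem (mem_erase.mpr ⟨by omega, h5⟩), card_erase_of_mem h4, h2]
        omega
    · intro Z hZ
      obtain ⟨hZ1, hZ2⟩ := mem_powersetCard.mp (mem_coe.mp hZ)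
      have hb : ∀ x ∈ Z, a < x ∧ x < z := fun x hx => mem_Ioo.mp (hZ1 hx)
      have hzZ : z ∉ Z := fun h => lt_irrefl _ (hb z h).2
      have haZ : a ∉ insert z Z := by
        intro h
        rcases mem_insert.mp h with h | h
        · omega
        · exact lt_irrefl _ (hb a h).1
      have hall : ∀ x ∈ insert a (insert z Z), a ≤ x ∧ x ≤ z := by
        intro x hx
        rcases mem_insert.mp hx with rfl | hx
        · omega
        · rcases mem_insert.mp hx with rfl | hx
          · omega
          · have := hb x hx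
            omega
      have hmn : mn (insert a (insert z Z)) = a := mn_eq (mem_insert_self _ _)
        (fun x hx => (hall x hx).1)
      have hmx : mx (insert a (insert z Z)) = z :=
        mx_eq (mem_insert_of_mem (mem_insert_self _ _)) (fun x hx => (hall x hx).2)
      refine mem_coe.mpr (mem_filter.mpr ⟨mem_filter.mpr ⟨mem_powersetCard.mpr ⟨?_, ?_⟩, ?_⟩, hmn⟩)
      · intro x hx
        have := hall x hx
        exact mem_range.mpr (by omega)
      · rw [card_insert_of_notMem haZ, card_insert_of_notMem hzZ, hZ2]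
        omega
      · rw [hmn, hmx]
        omega
    · intro W hW
      obtain ⟨hW1, hW2⟩ := mem_filter.mp (mem_coe.mp hW)
      obtain ⟨h1, h2, h3, h4, h5, h6, h7⟩ := hfact W hW1
      have hz' : mx W = z := by omega
      rw [hW2] at h4
      rw [hz'] at h5
      show insert a (insert z ((W.erase a).erase z)) = W
      rw [insert_erase (mem_erase.mpr ⟨by omega, h5⟩), insert_erase h4]
    · intro Z hZ
      obtain ⟨hZ1, hZ2⟩ := mem_powersetCard.mp (mem_coe.mp hZ)
      have hb : ∀ x ∈ Z, a < x ∧ x < z := fun x hx => mem_Ioo.mp (hZ1 hx)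
      have hzZ : z ∉ Z := fun h => lt_irrefl _ (hb z h).2
      have haZ : a ∉ insert z Z := by
        intro h
        rcases mem_insert.mp h with h | h
        · omega
        · exact lt_irrefl _ (hb a h).1
      show ((insert a (insert z Z)).erase a).erase z = Z
      rw [erase_insert haZ, erase_insert hzZ]
  · intro W hW
    obtain ⟨h1, h2, h3, h4, h5, h6, h7⟩ := hfact W (mem_coe.mp hW)
    exact mem_coe.mpr (mem_range.mpr (by omega))

variable {n : ℕ}

theorem trans_upper_on {r N : ℕ} (hr : 2 ≤ r) {ρ : Fin n → ℕ} (hρ : Function.Injective ρ)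
    {H : Finset (Finset (Fin n))} (hH : ∀ Z ∈ H, Z.card = r) {S : Finset (Fin n)} (hS : S.card = N)
    (hB : ∀ P ⊆ S, P.card = r + 1 → ∀ a ∈ P, ∀ z ∈ P,
      (∀ x ∈ P, ρ a ≤ ρ x ∧ ρ x ≤ ρ z) → ¬ (P.erase z ∈ H ∧ P.erase a ∈ H)) :
    2 * (H.filter (· ⊆ S)).card ≤ N.choose r + (Mid N r).card := by
  rcases Nat.eq_zero_or_pos N with h0 | h0
  · have h1 : (H.filter (· ⊆ S)).card ≤ N.choose r := by
      have := card_le_card (show H.filter (· ⊆ S) ⊆ S.powersetCard r from fun Z hZ =>
        mem_powersetCard.mpr ⟨(mem_filter.mp hZ).2, hH Z (mem_filter.mp hZ).1⟩)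
      rwa [card_powersetCard, hS] at this
    rw [Nat.choose_eq_zero_of_lt (by omega)] at h1
    omega
  · obtain ⟨g, hgS, hgm⟩ := enum hρ hS h0
    have hinjr : Set.InjOn g (range N : Finset ℕ) := by
      intro i hi j hj h
      have hi' := mem_range.mp (mem_coe.mp hi)
      have hj' := mem_range.mp (mem_coe.mp hj)
      rcases lt_trichotomy i j with h1 | h1 | h1
      · have := hgm i j h1 hj'
        rw [h] at this
        exact absurd this (lt_irrefl _)
      · exact h1
      · have := hgm j i h1 hi'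
        rw [h] at this
        exact absurd this (lt_irrefl _)
    have hinj : ∀ P : Finset ℕ, P ⊆ range N → Set.InjOn g P := fun P hP =>
      hinjr.mono (coe_subset.mpr hP)
    have hmono : ∀ i j, i ≤ j → j < N → ρ (g i) ≤ ρ (g j) := by
      intro i j hij hj
      rcases hij.lt_or_eq with h | h
      · exact (hgm i j h hj).le
      · rw [h]
    have himS : ∀ P : Finset ℕ, P ⊆ range N → P.image g ⊆ S := by
      intro P hP y hy
      obtain ⟨i, hi, rfl⟩ := mem_image.mp hy
      exact hgS i (mem_range.mp (hP hi))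
    have hsurj : (range N).image g = S := by
      refine eq_of_subset_of_card_le (himS _ (Subset.refl _)) ?_
      rw [card_image_of_injOn hinjr, card_range, hS]
    obtain ⟨H', hH'⟩ : ∃ H' : Finset ℕ → Prop, ∀ W, H' W ↔ W.image g ∈ H := ⟨_, fun _ => Iff.rfl⟩
    have h1 := shift_upper (n := N) hr (H := H') (by
      rintro P hP hPc a ha z hz haz ⟨hz1, ha1⟩
      rw [hH'] at hz1 ha1
      refine hB (P.image g) (himS P hP) (by rw [card_image_of_injOn (hinj P hP), hPc]) (g a)
        (mem_image_of_mem g ha) (g z) (mem_image_of_mem g hz) ?_ ⟨?_, ?_⟩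
      · intro x hx
        obtain ⟨u, hu, rfl⟩ := mem_image.mp hx
        exact ⟨hmono _ _ (haz u hu).1 (mem_range.mp (hP hu)),
          hmono _ _ (haz u hu).2 (mem_range.mp (hP hz))⟩
      · rw [← image_erase_of (hinj P hP) hz]; exact hz1
      · rw [← image_erase_of (hinj P hP) ha]; exact ha1)
    refine le_trans (Nat.mul_le_mul_left 2 ?_) h1
    refine card_le_card_of_injOn (fun Z => (range N).filter fun i => g i ∈ Z) ?_ ?_
    · intro Z hZ
      obtain ⟨hZH, hZS⟩ := mem_filter.mp (mem_coe.mp hZ)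
      have e : ((range N).filter fun i => g i ∈ Z).image g = Z := by
        ext y
        simp only [mem_image, mem_filter]
        constructor
        · rintro ⟨i, ⟨_, hi⟩, rfl⟩; exact hi
        · intro hy
          obtain ⟨i, hi, rfl⟩ := mem_image.mp (show y ∈ (range N).image g by rw [hsurj]; exact hZS hy)
          exact ⟨i, ⟨hi, hy⟩, rfl⟩
      have hs : ((range N).filter fun i => g i ∈ Z) ⊆ range N := filter_subset _ _
      refine mem_coe.mpr (mem_filter.mpr ⟨mem_powersetCard.mpr ⟨hs, ?_⟩, ?_⟩)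
      · have e2 := card_image_of_injOn (hinj _ hs)
        rw [e] at e2
        rw [← e2]
        exact hH Z hZH
      · rw [hH', e]; exact hZH
    · intro Z hZ Z' hZ' h
      have hZS := (mem_filter.mp (mem_coe.mp hZ)).2
      have hZS' := (mem_filter.mp (mem_coe.mp hZ')).2
      simp only at h
      ext y
      constructor
      · intro hy
        obtain ⟨i, hi, rfl⟩ := mem_image.mp (show y ∈ (range N).image g by rw [hsurj]; exact hZS hy)
        have : i ∈ (range N).filter fun i => g i ∈ Z' := by
          rw [← h]; exact mem_filter.mpr ⟨hi, hy⟩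
        exact (mem_filter.mp this).2
      · intro hy
        obtain ⟨i, hi, rfl⟩ := mem_image.mp (show y ∈ (range N).image g by rw [hsurj]; exact hZS' hy)
        have : i ∈ (range N).filter fun i => g i ∈ Z := by
          rw [h]; exact mem_filter.mpr ⟨hi, hy⟩
        exact (mem_filter.mp this).2

theorem trans_upper {r : ℕ} (hr : 2 ≤ r) {ρ : Fin n → ℕ} (hρ : Function.Injective ρ)
    {H : Finset (Finset (Fin n))} (hH : ∀ Z ∈ H, Z.card = r)
    (hB : ∀ P : Finset (Fin n), P.card = r + 1 → ∀ a ∈ P, ∀ z ∈ P,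
      (∀ x ∈ P, ρ a ≤ ρ x ∧ ρ x ≤ ρ z) → ¬ (P.erase z ∈ H ∧ P.erase a ∈ H)) :
    2 * H.card ≤ n.choose r + (Mid n r).card := by
  have h := trans_upper_on hr hρ hH (S := univ) (N := n) (by rw [card_univ, Fintype.card_fin])
    (fun P _ => hB P)
  rwa [filter_true_of_mem (fun Z _ => subset_univ Z)] at h

theorem mid_le (N : ℕ) {r : ℕ} (hr : 2 ≤ r) : (Mid N r).card ≤ N.choose (r - 1) := by
  have h : (Mid N r).card ≤ ((range N).powersetCard (r - 1)).card := by
    have hz0 : ∀ W ∈ Mid N r, mx W ∈ W ∧ mn W ∈ W ∧ mn W ≠ mx W ∧ W ⊆ range N ∧ W.card = r ∧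
        mn W + mx W = N - 1 := by
      intro W hW
      obtain ⟨h4, h5⟩ := mem_filter.mp hW
      obtain ⟨h6, h7⟩ := mem_powersetCard.mp h4
      have hne : W.Nonempty := card_pos.mp (by omega)
      refine ⟨mx_mem hne, mn_mem hne, ?_, h6, h7, h5⟩
      intro hc
      have : W ⊆ {mn W} := by
        intro x hx
        have := mn_le hx
        have := le_mx hx
        rw [mem_singleton]
        omega
      have := card_le_card this
      rw [card_singleton] at this
      omega
    refine card_le_card_of_injOn (fun W => W.erase (mx W)) ?_ ?_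
    · intro W hW
      obtain ⟨h1, h2, h3, h4, h5, h6⟩ := hz0 W (mem_coe.mp hW)
      refine mem_coe.mpr (mem_powersetCard.mpr ⟨(erase_subset _ _).trans h4, ?_⟩)
      rw [card_erase_of_mem h1, h5]
    · intro W hW W' hW' h
      obtain ⟨h1, h2, h3, h4, h5, h6⟩ := hz0 W (mem_coe.mp hW)
      obtain ⟨h1', h2', h3', h4', h5', h6'⟩ := hz0 W' (mem_coe.mp hW')
      simp only at h
      have e1 : mn (W.erase (mx W)) = mn W := mn_eq (mem_erase.mpr ⟨h3, h2⟩)
        (fun x hx => mn_le (mem_erase.mp hx).2)
      have e2 : mn (W'.erase (mx W')) = mn W' := mn_eq (mem_erase.mpr ⟨h3', h2'⟩)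
        (fun x hx => mn_le (mem_erase.mp hx).2)
      rw [h, e2] at e1
      have e3 : mx W = mx W' := by omega
      calc W = insert (mx W) (W.erase (mx W)) := (insert_erase h1).symm
        _ = insert (mx W') (W'.erase (mx W')) := by rw [h, e3]
        _ = W' := insert_erase h1'
  rwa [card_powersetCard, card_range] at h

theorem image_val_erase (P : Finset (Fin n)) (z : Fin n) :
    (P.erase z).image (fun v => v.1) = (P.image fun v => v.1).erase z.1 := by
  ext x
  simp only [mem_image, mem_erase]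
  constructor
  · rintro ⟨u, ⟨h1, h2⟩, rfl⟩
    exact ⟨fun h => h1 (Fin.ext h), u, h2, rfl⟩
  · rintro ⟨h1, u, hu, rfl⟩
    exact ⟨u, ⟨fun h => h1 (by rw [h]), hu⟩, rfl⟩

theorem trans_lower (n : ℕ) {r : ℕ} (hr : 2 ≤ r) :
    ∃ H : Finset (Finset (Fin n)), (∀ Z ∈ H, Z.card = r) ∧
      (∀ P : Finset (Fin n), P.card = r + 1 → ∀ a ∈ P, ∀ z ∈ P,
        (∀ x ∈ P, a.1 ≤ x.1 ∧ x.1 ≤ z.1) → ¬ (P.erase z ∈ H ∧ P.erase a ∈ H)) ∧
      n.choose r + (Mid n r).card ≤ 2 * H.card := by
  refine ⟨((univ : Finset (Fin n)).powersetCard r).filter fun Z => Vp n (Z.image fun v => v.1),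
    fun Z hZ => (mem_powersetCard.mp (mem_filter.mp hZ).1).2, ?_, ?_⟩
  · rintro P hP a ha z hz haz ⟨h1, h2⟩
    have h3 := (mem_filter.mp h1).2
    have h4 := (mem_filter.mp h2).2
    rw [image_val_erase] at h3 h4
    have hinj : Set.InjOn (fun v : Fin n => v.1) (P : Set (Fin n)) := fun v _ w _ h => Fin.ext h
    have hc : 3 ≤ (P.image fun v => v.1).card := by rw [card_image_of_injOn hinj]; omega
    have ha' : a.1 ∈ P.image fun v => v.1 := mem_image.mpr ⟨a, ha, rfl⟩
    have hz' : z.1 ∈ P.image fun v => v.1 := mem_image.mpr ⟨z, hz, rfl⟩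
    have hb' : ∀ x ∈ P.image fun v => v.1, a.1 ≤ x ∧ x ≤ z.1 := by
      intro x hx
      obtain ⟨u, hu, rfl⟩ := mem_image.mp hx
      exact haz u hu
    exact vp_indep hc ha' hz' hb' ⟨h3, h4⟩
  · refine le_trans (shift_lower n hr) (Nat.mul_le_mul_left 2 ?_)
    refine card_le_card_of_injOn (fun W => (univ : Finset (Fin n)).filter fun v => v.1 ∈ W) ?_ ?_
    · intro W hW
      obtain ⟨h1, h2⟩ := mem_filter.mp (mem_coe.mp hW)
      obtain ⟨h3, h4⟩ := mem_powersetCard.mp h1
      have e : ((univ : Finset (Fin n)).filter fun v => v.1 ∈ W).image (fun v => v.1) = W := by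
        ext x
        simp only [mem_image, mem_filter, mem_univ, true_and]
        constructor
        · rintro ⟨v, hv, rfl⟩; exact hv
        · intro hx
          exact ⟨⟨x, mem_range.mp (h3 hx)⟩, hx, rfl⟩
      refine mem_coe.mpr (mem_filter.mpr ⟨mem_powersetCard.mpr ⟨subset_univ _, ?_⟩, ?_⟩)
      · have hinj : Set.InjOn (fun v : Fin n => v.1)
            (((univ : Finset (Fin n)).filter fun v => v.1 ∈ W : Finset (Fin n)) : Set (Fin n)) :=
          fun v _ w _ h => Fin.ext h
        have e2 := card_image_of_injOn hinj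
        rw [e] at e2
        rw [← e2, h4]
      · rw [e]; exact h2
    · intro W hW W' hW' h
      obtain ⟨h3, _⟩ := mem_powersetCard.mp (mem_filter.mp (mem_coe.mp hW)).1
      obtain ⟨h3', _⟩ := mem_powersetCard.mp (mem_filter.mp (mem_coe.mp hW')).1
      simp only at h
      ext x
      constructor
      · intro hx
        have : (⟨x, mem_range.mp (h3 hx)⟩ : Fin n) ∈ (univ : Finset (Fin n)).filter fun v => v.1 ∈ W' := by
          rw [← h]; exact mem_filter.mpr ⟨mem_univ _, hx⟩
        exact (mem_filter.mp this).2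
      · intro hx
        have : (⟨x, mem_range.mp (h3' hx)⟩ : Fin n) ∈ (univ : Finset (Fin n)).filter fun v => v.1 ∈ W := by
          rw [h]; exact mem_filter.mpr ⟨mem_univ _, hx⟩
        exact (mem_filter.mp this).2

end Pool.Agent.Helper964_DD.RG
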